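import Mathlib

set_option autoImplicit false

/-!
Quadratic forms on finite product spaces: tensor operators and the barrier inequality (abstract form).
-/

namespace Pool.Agent.K4H10.BR

open Finset

variable {ι : Type} [Fintype ι] [DecidableEq ι] {α : ι → Type} [∀ i, Fintype (α i)]
  [∀ i, DecidableEq (α i)]

/-- the tensor operator with factors `M i` -/
noncomputable def T (M : ∀ i, α i → α i → ℝ) (V : (∀ i, α i) → ℝ) (ω : ∀ i, α i) : ℝ :=
  ∑ η, (∏ i, M i (ω i) (η i)) * V η

/-- the quadratic form of the tensor product of the `G i` -/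
noncomputable def Φ (G : ∀ i, α i → α i → ℝ) (V : (∀ i, α i) → ℝ) : ℝ :=
  ∑ η, ∑ θ, V η * V θ * ∏ i, G i (η i) (θ i)

theorem T_sq (M G : ∀ i, α i → α i → ℝ) (hG : ∀ i b c, ∑ a, M i a b * M i a c = G i b c)
    (V : (∀ i, α i) → ℝ) : ∑ ω, (T M V ω) ^ 2 = Φ G V := by
  unfold T Φ
  have h1 : ∀ ω : (∀ i, α i), (∑ η, (∏ i, M i (ω i) (η i)) * V η) ^ 2 =
      ∑ η, ∑ θ, V η * V θ * ∏ i, (M i (ω i) (η i) * M i (ω i) (θ i)) := by
    intro ω
    rw [sq, Finset.sum_mul_sum]
    refine Finset.sum_congr rfl fun η _ => Finset.sum_congr rfl fun θ _ => ?_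
    rw [Finset.prod_mul_distrib]
    ring
  simp_rw [h1]
  rw [Finset.sum_comm]
  refine Finset.sum_congr rfl fun η _ => ?_
  rw [Finset.sum_comm]
  refine Finset.sum_congr rfl fun θ _ => ?_
  rw [← Finset.mul_sum]
  congr 1
  have h2 := Finset.prod_univ_sum (fun i => (Finset.univ : Finset (α i)))
    (fun i a => M i a (η i) * M i a (θ i))
  rw [Fintype.piFinset_univ] at h2
  rw [← h2]
  exact Finset.prod_congr rfl fun i _ => hG i _ _

/-- `A` on `s`, `B` off `s` -/
def mix (s : Finset ι) (A B : ∀ i, α i → α i → ℝ) : ∀ i, α i → α i → ℝ :=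
  fun i => if i ∈ s then A i else B i

theorem sum_mix (A B : ∀ i, α i → α i → ℝ) (η θ : ∀ i, α i) :
    ∑ s ∈ (univ : Finset ι).powerset, ∏ i, mix s A B i (η i) (θ i) =
      ∏ i, (A i (η i) (θ i) + B i (η i) (θ i)) := by
  rw [Finset.prod_add]
  refine Finset.sum_congr rfl fun s _ => ?_
  unfold mix
  have h1 : ∀ i, (if i ∈ s then A i else B i) (η i) (θ i) =
      if i ∈ s then A i (η i) (θ i) else B i (η i) (θ i) := by
    intro i
    split_ifs <;> rfl
  simp_rw [h1]
  rw [Finset.prod_ite]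
  congr 1
  · refine Finset.prod_congr ?_ fun _ _ => rfl
    ext i; simp
  · refine Finset.prod_congr ?_ fun _ _ => rfl
    ext i; simp

/-- alternating version -/
theorem sum_mix_neg (A B : ∀ i, α i → α i → ℝ) (η θ : ∀ i, α i) :
    ∑ s ∈ (univ : Finset ι).powerset, (-1 : ℝ) ^ s.card * ∏ i, mix s A B i (η i) (θ i) =
      ∏ i, (B i (η i) (θ i) - A i (η i) (θ i)) := by
  have h := sum_mix (fun i a b => - A i a b) B η θ
  have h2 : ∏ i, (-A i (η i) (θ i) + B i (η i) (θ i)) = ∏ i, (B i (η i) (θ i) - A i (η i) (θ i)) :=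
    Finset.prod_congr rfl fun i _ => by ring
  rw [← h2, ← h]
  refine Finset.sum_congr rfl fun s _ => ?_
  unfold mix
  have h1 : ∀ i, (if i ∈ s then A i else B i) (η i) (θ i) =
      if i ∈ s then A i (η i) (θ i) else B i (η i) (θ i) := by
    intro i
    split_ifs <;> rfl
  have h3 : ∀ i, (if i ∈ s then (fun a b => - A i a b) else B i) (η i) (θ i) =
      if i ∈ s then - A i (η i) (θ i) else B i (η i) (θ i) := by
    intro i
    split_ifs <;> rfl
  simp_rw [h1, h3]
  rw [Finset.prod_ite, Finset.prod_ite]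
  have h4 : ∏ x ∈ univ.filter (fun i => i ∈ s), -A x (η x) (θ x) =
      (-1 : ℝ) ^ s.card * ∏ x ∈ univ.filter (fun i => i ∈ s), A x (η x) (θ x) := by
    rw [Finset.prod_neg]
    congr 2
    congr 1
    ext i; simp
  rw [h4]
  ring

/-- the part of `mix` with `i ∈ s` -/
theorem sum_mix_mem (A B : ∀ i, α i → α i → ℝ) (i : ι) (η θ : ∀ i, α i) :
    ∑ s ∈ (univ : Finset ι).powerset with i ∈ s, ∏ j, mix s A B j (η j) (θ j) =
      ∏ j, (if j = i then A j (η j) (θ j) else A j (η j) (θ j) + B j (η j) (θ j)) := by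
  have h := sum_mix A (fun j a b => if j = i then 0 else B j a b) η θ
  have h2 : ∏ j, (A j (η j) (θ j) + (if j = i then 0 else B j (η j) (θ j))) =
      ∏ j, (if j = i then A j (η j) (θ j) else A j (η j) (θ j) + B j (η j) (θ j)) := by
    refine Finset.prod_congr rfl fun j _ => ?_
    split_ifs <;> ring
  rw [← h2, ← h, Finset.sum_filter]
  refine Finset.sum_congr rfl fun s _ => ?_
  split_ifs with hi
  · refine Finset.prod_congr rfl fun j _ => ?_
    unfold mix
    by_cases hj : j ∈ s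
    · simp [hj]
    · have : j ≠ i := fun h => hj (h ▸ hi)
      simp [hj, this]
  · symm
    apply Finset.prod_eq_zero (Finset.mem_univ i)
    simp [mix, hi]

/-- the identity matrix -/
def one : ∀ i, α i → α i → ℝ := fun _ a b => if a = b then 1 else 0

theorem Φ_one (V : (∀ i, α i) → ℝ) : Φ one V = ∑ η, V η ^ 2 := by
  unfold Φ one
  refine Finset.sum_congr rfl fun η _ => ?_
  rw [Finset.sum_eq_single η]
  · simp [sq]
  · intro θ _ hθ
    have : ∃ i, η i ≠ θ i := by
      by_contra hcon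
      push Not at hcon
      exact hθ (funext fun i => (hcon i).symm)
    obtain ⟨i, hi⟩ := this
    rw [Finset.prod_eq_zero (Finset.mem_univ i) (by simp [hi]), mul_zero]
  · intro h
    exact absurd (Finset.mem_univ _) h

/-- Sum over `s` of the forms `Φ (mix s A B)`, if `A + B = 1`. -/
theorem sum_Φ_mix (A B : ∀ i, α i → α i → ℝ) (hAB : ∀ i a b, A i a b + B i a b = one i a b)
    (V : (∀ i, α i) → ℝ) :
    ∑ s ∈ (univ : Finset ι).powerset, Φ (mix s A B) V = ∑ η, V η ^ 2 := by
  rw [← Φ_one]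
  unfold Φ
  rw [Finset.sum_comm]
  refine Finset.sum_congr rfl fun η _ => ?_
  rw [Finset.sum_comm]
  refine Finset.sum_congr rfl fun θ _ => ?_
  rw [← Finset.mul_sum, sum_mix]
  simp_rw [hAB]

/-- `A` at `i`, the identity elsewhere -/
def at1 (i : ι) (A : ∀ i, α i → α i → ℝ) : ∀ i, α i → α i → ℝ :=
  fun j => if j = i then A j else one j

theorem sum_ell_Φ_mix (A B : ∀ i, α i → α i → ℝ) (hAB : ∀ i a b, A i a b + B i a b = one i a b)
    (ell : ι → ℝ) (V : (∀ i, α i) → ℝ) :
    ∑ s ∈ (univ : Finset ι).powerset, (∑ i ∈ s, ell i) * Φ (mix s A B) V =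
      ∑ i, ell i * Φ (at1 i A) V := by
  have h1 : ∀ s ∈ (univ : Finset ι).powerset, (∑ i ∈ s, ell i) * Φ (mix s A B) V =
      ∑ i, if i ∈ s then ell i * Φ (mix s A B) V else 0 := by
    intro s _
    rw [Finset.sum_mul, Finset.sum_ite_mem, Finset.univ_inter]
  rw [Finset.sum_congr rfl h1, Finset.sum_comm]
  refine Finset.sum_congr rfl fun i _ => ?_
  rw [← Finset.sum_filter, ← Finset.mul_sum]
  congr 1
  unfold Φ
  rw [Finset.sum_comm]
  refine Finset.sum_congr rfl fun η _ => ?_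
  rw [Finset.sum_comm]
  refine Finset.sum_congr rfl fun θ _ => ?_
  rw [← Finset.mul_sum, sum_mix_mem]
  congr 1
  refine Finset.prod_congr rfl fun j _ => ?_
  unfold at1
  split_ifs with hj
  · rfl
  · exact hAB _ _ _

end Pool.Agent.K4H10.BR
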