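import Pool.Agent.K4H10.BR.Abs

set_option autoImplicit false
set_option linter.unusedSectionVars false

namespace Pool.Agent.K4H10.BR

open Finset

variable {ι : Type} [Fintype ι] [DecidableEq ι] {α : ι → Type} [∀ i, Fintype (α i)]
  [∀ i, DecidableEq (α i)]

/-- put the coordinate `a` at `i` -/
def put (i : ι) (a : α i) (r : ∀ j : {j // j ≠ i}, α j) : ∀ j, α j :=
  (Equiv.piSplitAt i α).symm (a, r)

theorem put_self (i : ι) (a : α i) (r : ∀ j : {j // j ≠ i}, α j) : put i a r i = a := by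
  simp [put, Equiv.piSplitAt]

theorem put_ne (i : ι) (a : α i) (r : ∀ j : {j // j ≠ i}, α j) (j : {j // j ≠ i}) :
    put i a r j = r j := by
  have h : (j : ι) ≠ i := j.2
  simp [put, Equiv.piSplitAt, h]

theorem sum_put (i : ι) (F : (∀ j, α j) → ℝ) :
    ∑ η, F η = ∑ r : (∀ j : {j // j ≠ i}, α j), ∑ a, F (put i a r) := by
  rw [← Equiv.sum_comp (Equiv.piSplitAt i α).symm F, Fintype.sum_prod_type, Finset.sum_comm]
  rfl

theorem Φ_at1 (i : ι) (A : ∀ i, α i → α i → ℝ) (V : (∀ j, α j) → ℝ) :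
    Φ (at1 i A) V = ∑ r : (∀ j : {j // j ≠ i}, α j), ∑ a, ∑ b,
      V (put i a r) * V (put i b r) * A i a b := by
  unfold Φ
  rw [sum_put i]
  refine Finset.sum_congr rfl fun r _ => Finset.sum_congr rfl fun a _ => ?_
  rw [sum_put i]
  rw [Finset.sum_eq_single r]
  · refine Finset.sum_congr rfl fun b _ => ?_
    congr 1
    rw [Fintype.prod_eq_mul_prod_subtype_ne _ i]
    have h1 : at1 i A i (put i a r i) (put i b r i) = A i a b := by
      simp [at1, put_self]
    rw [h1]
    have h2 : ∏ j : {j // j ≠ i}, at1 i A j (put i a r j) (put i b r j) = 1 := by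
      apply Finset.prod_eq_one
      intro j _
      rw [put_ne, put_ne]
      simp [at1, one, j.2]
    rw [h2, mul_one]
  · intro r' _ hr'
    apply Finset.sum_eq_zero
    intro b _
    have : ∃ j, r j ≠ r' j := by
      by_contra hcon
      push Not at hcon
      exact hr' (funext fun j => (hcon j).symm)
    obtain ⟨j, hj⟩ := this
    have h3 : ∏ k, at1 i A k (put i a r k) (put i b r' k) = 0 := by
      apply Finset.prod_eq_zero (Finset.mem_univ (j : ι))
      rw [put_ne, put_ne]
      simp [at1, one, j.2, hj]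
    rw [h3, mul_zero]
  · intro h
    exact absurd (Finset.mem_univ _) h

/-- the tensor operator kills the functions that do not depend on a coordinate where the row sums
vanish -/
theorem T_zero (M : ∀ i, α i → α i → ℝ) (i : ι) (hM : ∀ a, ∑ b, M i a b = 0)
    (V : (∀ j, α j) → ℝ) (hV : ∀ η η' : ∀ j, α j, (∀ j, j ≠ i → η j = η' j) → V η = V η')
    (ω : ∀ j, α j) : T M V ω = 0 := by
  unfold T
  rw [sum_put i]
  apply Finset.sum_eq_zero
  intro r _
  have h1 : ∀ a : α i, (∏ j, M j (ω j) (put i a r j)) * V (put i a r) =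
      M i (ω i) a * ((∏ j : {j // j ≠ i}, M j (ω j) (r j)) * V (put i (ω i) r)) := by
    intro a
    rw [Fintype.prod_eq_mul_prod_subtype_ne _ i, put_self]
    have h2 : V (put i a r) = V (put i (ω i) r) := by
      apply hV
      intro j hj
      rw [put_ne i a r ⟨j, hj⟩, put_ne i (ω i) r ⟨j, hj⟩]
    rw [h2]
    have h3 : ∏ j : {j // j ≠ i}, M j (ω j) (put i a r j) =
        ∏ j : {j // j ≠ i}, M j (ω j) (r j) :=
      Finset.prod_congr rfl fun j _ => by rw [put_ne]
    rw [h3]
    ring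
  simp_rw [h1]
  rw [← Finset.sum_mul, hM, zero_mul]

/-- `A` is a symmetric idempotent family -/
def IsProj (A : ∀ i, α i → α i → ℝ) : Prop :=
  (∀ i b c, ∑ a, A i a b * A i a c = A i b c) ∧ ∀ i a b, A i a b = A i b a

theorem IsProj.compl {A : ∀ i, α i → α i → ℝ} (h : IsProj A) :
    IsProj (fun i a b => one i a b - A i a b) := by
  refine ⟨fun i b c => ?_, fun i a b => ?_⟩
  · have h1 : ∀ a : α i, (one i a b - A i a b) * (one i a c - A i a c) =
        one i a b * one i a c - one i a b * A i a c - one i a c * A i a b + A i a b * A i a c := by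
      intro a; ring
    simp_rw [h1]
    rw [Finset.sum_add_distrib, Finset.sum_sub_distrib, Finset.sum_sub_distrib, h.1]
    have e1 : ∑ a, one i a b * one i a c = one i b c := by
      simp [one, eq_comm]
    have e2 : ∑ a, one i a b * A i a c = A i b c := by
      simp [one]
    have e3 : ∑ a, one i a c * A i a b = A i c b := by
      simp [one]
    rw [e1, e2, e3, h.2 i c b]
    ring
  · show one i a b - A i a b = one i b a - A i b a
    rw [h.2 i a b]
    unfold one
    simp only [eq_comm]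

theorem IsProj.mix {A B : ∀ i, α i → α i → ℝ} (hA : IsProj A) (hB : IsProj B) (s : Finset ι) :
    IsProj (mix s A B) := by
  refine ⟨fun i b c => ?_, fun i a b => ?_⟩
  · unfold BR.mix
    split_ifs
    · exact hA.1 i b c
    · exact hB.1 i b c
  · unfold BR.mix
    split_ifs
    · exact hA.2 i a b
    · exact hB.2 i a b

theorem IsProj.Φ_eq {A : ∀ i, α i → α i → ℝ} (hA : IsProj A) (V : (∀ j, α j) → ℝ) :
    Φ A V = ∑ ω, (T A V ω) ^ 2 := (T_sq A A hA.1 V).symm

theorem IsProj.Φ_nonneg {A : ∀ i, α i → α i → ℝ} (hA : IsProj A) (V : (∀ j, α j) → ℝ) :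
    0 ≤ Φ A V := by
  rw [hA.Φ_eq]
  exact Finset.sum_nonneg fun _ _ => sq_nonneg _

/-- the averaging matrix -/
noncomputable def av (q : ι → ℝ) : ∀ i, α i → α i → ℝ := fun i _ _ => 1 / q i

theorem av_proj (q : ι → ℝ) (hq : ∀ i, (Fintype.card (α i) : ℝ) = q i) (hq0 : ∀ i, 0 < q i) :
    IsProj (av q : ∀ i, α i → α i → ℝ) := by
  refine ⟨fun i b c => ?_, fun i a b => rfl⟩
  unfold av
  rw [Finset.sum_const, Finset.card_univ, nsmul_eq_mul, hq]
  have := (hq0 i).ne'
  field_simp

/-- the projection in the direction of the point `x` -/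
noncomputable def pr (q : ι → ℝ) (x : ∀ i, α i) : ∀ i, α i → α i → ℝ := fun i a b =>
  (q i * (if a = x i then 1 else 0) - 1) * (q i * (if b = x i then 1 else 0) - 1) /
    (q i * (q i - 1))

theorem sum_ind (i : ι) (q : ι → ℝ) (hq : ∀ i, (Fintype.card (α i) : ℝ) = q i) (x : α i) :
    ∑ a : α i, (q i * (if a = x then 1 else 0) - 1 : ℝ) = 0 := by
  rw [Finset.sum_sub_distrib, ← Finset.mul_sum]
  simp [hq]

theorem sum_ind_sq (i : ι) (q : ι → ℝ) (hq : ∀ i, (Fintype.card (α i) : ℝ) = q i) (x : α i) :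
    ∑ a : α i, (q i * (if a = x then 1 else 0) - 1 : ℝ) ^ 2 = q i * (q i - 1) := by
  have h1 : ∀ a : α i, (q i * (if a = x then 1 else 0) - 1 : ℝ) ^ 2 =
      (q i ^ 2 - 2 * q i) * (if a = x then 1 else 0) + 1 := by
    intro a
    split_ifs <;> ring
  simp_rw [h1]
  rw [Finset.sum_add_distrib, ← Finset.mul_sum]
  simp [hq]
  ring

theorem pr_proj (q : ι → ℝ) (hq : ∀ i, (Fintype.card (α i) : ℝ) = q i) (hq1 : ∀ i, 1 < q i)
    (x : ∀ i, α i) : IsProj (pr q x) := by
  refine ⟨fun i b c => ?_, fun i a b => by unfold pr; ring⟩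
  unfold pr
  have h0 : q i ≠ 0 := by linarith [hq1 i]
  have h1 : q i - 1 ≠ 0 := by linarith [hq1 i]
  have h2 : ∀ a : α i, (q i * (if a = x i then 1 else 0) - 1) *
      (q i * (if b = x i then 1 else 0) - 1) / (q i * (q i - 1)) *
      ((q i * (if a = x i then 1 else 0) - 1) *
      (q i * (if c = x i then 1 else 0) - 1) / (q i * (q i - 1))) =
      ((q i * (if b = x i then 1 else 0) - 1) * (q i * (if c = x i then 1 else 0) - 1) /
        (q i * (q i - 1)) ^ 2) * (q i * (if a = x i then 1 else 0) - 1) ^ 2 := by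
    intro a
    generalize q i * (q i - 1) = D
    ring
  simp_rw [h2]
  rw [← Finset.mul_sum, sum_ind_sq i q hq]
  have h3 : q i * (q i - 1) ≠ 0 := mul_ne_zero h0 h1
  rw [div_mul_eq_mul_div, div_eq_div_iff (pow_ne_zero 2 h3) h3]
  ring

/-- sum of the projections in the directions of distinct points -/
theorem sum_pr_le {κ : Type} [Fintype κ] [DecidableEq κ] (q : ι → ℝ)
    (hq : ∀ i, (Fintype.card (α i) : ℝ) = q i)
    (hq1 : ∀ i, 1 < q i) (ρ : ℝ) (hρ : ∀ i, q i / (q i - 1) ≤ ρ) (x : κ → ∀ i, α i) (i : ι)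
    (hx : Function.Injective (fun k => x k i)) (V : (∀ j, α j) → ℝ) :
    ∑ k, Φ (at1 i (pr q (x k))) V ≤
      ρ * Φ (at1 i (fun i a b => one i a b - av q i a b)) V := by
  have h0 : 0 < q i := by linarith [hq1 i]
  have h1 : 0 < q i - 1 := by linarith [hq1 i]
  simp_rw [Φ_at1]
  rw [Finset.sum_comm, Finset.mul_sum]
  refine Finset.sum_le_sum fun r _ => ?_
  set f : α i → ℝ := fun a => V (put i a r) with hf
  have e1 : ∀ k, ∑ a, ∑ b, V (put i a r) * V (put i b r) * pr q (x k) i a b =
      (q i * f (x k i) - ∑ a, f a) ^ 2 / (q i * (q i - 1)) := by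
    intro k
    have h2 : ∑ a, (q i * (if a = x k i then 1 else 0) - 1) * f a =
        q i * f (x k i) - ∑ a, f a := by
      have : ∀ a, (q i * (if a = x k i then 1 else 0) - 1) * f a =
          q i * (if a = x k i then f a else 0) - f a := by
        intro a; split_ifs <;> ring
      simp_rw [this]
      rw [Finset.sum_sub_distrib, ← Finset.mul_sum]
      simp
    rw [← h2, sq, Finset.sum_mul_sum, Finset.sum_div]
    refine Finset.sum_congr rfl fun a _ => ?_
    rw [Finset.sum_div]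
    refine Finset.sum_congr rfl fun b _ => ?_
    simp only [hf, pr]
    ring
  have e2 : ∑ a, ∑ b, V (put i a r) * V (put i b r) * (one i a b - av q i a b) =
      ∑ a, f a ^ 2 - (∑ a, f a) ^ 2 / q i := by
    have : ∀ a b, V (put i a r) * V (put i b r) * (one i a b - av q i a b) =
        (if a = b then f a * f b else 0) - f a * f b / q i := by
      intro a b
      simp only [hf, one, av]
      split_ifs <;> ring
    simp_rw [this, Finset.sum_sub_distrib]
    congr 1
    · refine Finset.sum_congr rfl fun a _ => ?_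
      rw [Finset.sum_ite_eq]
      simp [sq]
    · rw [sq, Finset.sum_mul_sum, Finset.sum_div]
      refine Finset.sum_congr rfl fun a _ => ?_
      rw [Finset.sum_div]
  simp_rw [e1]
  rw [e2, ← Finset.sum_div]
  have h3 : ∑ k, (q i * f (x k i) - ∑ a, f a) ^ 2 ≤ ∑ a, (q i * f a - ∑ a, f a) ^ 2 := by
    have : ∑ k, (q i * f (x k i) - ∑ a, f a) ^ 2 =
        ∑ a ∈ Finset.univ.image (fun k => x k i), (q i * f a - ∑ a, f a) ^ 2 := by
      rw [Finset.sum_image]
      intro k _ k' _ hk
      exact hx hk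
    rw [this]
    exact Finset.sum_le_sum_of_subset_of_nonneg (Finset.subset_univ _)
      fun _ _ _ => sq_nonneg _
  have h4 : ∑ a, (q i * f a - ∑ a, f a) ^ 2 =
      q i ^ 2 * (∑ a, f a ^ 2 - (∑ a, f a) ^ 2 / q i) := by
    have : ∀ a, (q i * f a - ∑ a, f a) ^ 2 =
        q i ^ 2 * f a ^ 2 - 2 * q i * (∑ a, f a) * f a + (∑ a, f a) ^ 2 := by
      intro a; ring
    simp_rw [this]
    rw [Finset.sum_add_distrib, Finset.sum_sub_distrib, ← Finset.mul_sum, ← Finset.mul_sum,
      Finset.sum_const, Finset.card_univ, nsmul_eq_mul, hq]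
    field_simp
    ring
  have h5 : 0 ≤ ∑ a, f a ^ 2 - (∑ a, f a) ^ 2 / q i := by
    have : 0 ≤ q i ^ 2 * (∑ a, f a ^ 2 - (∑ a, f a) ^ 2 / q i) := by
      rw [← h4]
      exact Finset.sum_nonneg fun _ _ => sq_nonneg _
    exact nonneg_of_mul_nonneg_right this (by positivity)
  calc (∑ k, (q i * f (x k i) - ∑ a, f a) ^ 2) / (q i * (q i - 1))
      ≤ (q i ^ 2 * (∑ a, f a ^ 2 - (∑ a, f a) ^ 2 / q i)) / (q i * (q i - 1)) := by
        rw [← h4]
        exact div_le_div_of_nonneg_right h3 (by positivity)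
    _ = q i / (q i - 1) * (∑ a, f a ^ 2 - (∑ a, f a) ^ 2 / q i) := by
        field_simp
    _ ≤ ρ * (∑ a, f a ^ 2 - (∑ a, f a) ^ 2 / q i) :=
        mul_le_mul_of_nonneg_right (hρ i) h5

end Pool.Agent.K4H10.BR
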