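import Pool.Agent.K4H10.BR.Abs2

set_option autoImplicit false
set_option linter.unusedSectionVars false

namespace Pool.Agent.K4H10.BR

open Finset

variable {ι : Type} [Fintype ι] [DecidableEq ι] {α : ι → Type} [∀ i, Fintype (α i)]
  [∀ i, DecidableEq (α i)]

/-- `V` has no components with support outside the family `𝓛` -/
def Lev (𝓛 : Finset ι → Prop) (V : (∀ i, α i) → ℝ) : Prop :=
  ∀ s, ¬ 𝓛 s → ∀ M : ∀ i, α i → α i → ℝ, (∀ i ∈ s, ∀ a, ∑ b, M i a b = 0) → ∀ ω, T M V ω = 0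

/-- the resampling matrix -/
noncomputable def red (q : ι → ℝ) (x : ∀ i, α i) : ∀ i, α i → α i → ℝ := fun i a b =>
  if a = x i then (if b = x i then 0 else 1 / (q i - 1)) else (if a = b then 1 else 0)

/-- the correction -/
noncomputable def Zm (q : ι → ℝ) (x : ∀ i, α i) : ∀ i, α i → α i → ℝ := fun i _ b =>
  (q i * (if b = x i then 1 else 0) - 1) / (q i * (q i - 1))

/-- the complementary projection -/
noncomputable def Xm (q : ι → ℝ) (x : ∀ i, α i) : ∀ i, α i → α i → ℝ := fun i a b =>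
  one i a b - pr q x i a b

theorem red_eq (q : ι → ℝ) (hq1 : ∀ i, 1 < q i) (x : ∀ i, α i) (i : ι) (a b : α i) :
    red q x i a b = Xm q x i a b - Zm q x i a b := by
  have h0 : q i ≠ 0 := by linarith [hq1 i]
  have h1 : q i - 1 ≠ 0 := by linarith [hq1 i]
  unfold red Xm Zm pr one
  by_cases ha : a = x i
  · by_cases hb : b = x i
    · subst ha
      simp only [hb, if_true]
      field_simp
      ring
    · have hab : ¬ a = b := fun h => hb (h ▸ ha)
      simp only [ha, hb, if_true, if_false]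
      have hab' : ¬ x i = b := fun h => hb h.symm
      simp only [hab', if_false]
      field_simp
      ring
  · by_cases hab : a = b
    · subst hab
      simp only [ha, if_false, if_true]
      field_simp
      ring
    · by_cases hb : b = x i
      · have hc : ¬ a = x i := ha
        simp only [ha, hb, if_false, if_true]
        field_simp
        ring
      · simp only [ha, hb, hab, if_false]
        field_simp
        ring

theorem sum_mul_ind (i : ι) (q : ι → ℝ) (hq : ∀ i, (Fintype.card (α i) : ℝ) = q i) (x : α i)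
    (c : ℝ) : ∑ b : α i, (q i * (if b = x then 1 else 0) - 1 : ℝ) / c = 0 := by
  rw [← Finset.sum_div, sum_ind i q hq, zero_div]

theorem Jensen (q : ι → ℝ) (hq : ∀ i, (Fintype.card (α i) : ℝ) = q i) (hq1 : ∀ i, 1 < q i)
    (x : ∀ i, α i) (V : (∀ i, α i) → ℝ) :
    (∏ i, (1 - 1 / q i)) * ∑ ω, (T (red q x) V ω) ^ 2 ≤
      ∑ ω with (∀ i, ω i ≠ x i), V ω ^ 2 := by
  have hnn : ∀ i a b, 0 ≤ red q x i a b := by
    intro i a b
    unfold red
    have : 0 < q i - 1 := by linarith [hq1 i]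
    split_ifs
    · exact le_rfl
    · positivity
    · exact zero_le_one
    · exact le_rfl
  have hrow : ∀ i a, ∑ b, red q x i a b = 1 := by
    intro i a
    have h1 : q i - 1 ≠ 0 := by linarith [hq1 i]
    unfold red
    by_cases ha : a = x i
    · simp only [ha, if_true]
      have : ∀ b : α i, (if b = x i then (0:ℝ) else 1 / (q i - 1)) =
          1 / (q i - 1) - (if b = x i then 1 / (q i - 1) else 0) := by
        intro b; split_ifs <;> ring
      simp_rw [this]
      rw [Finset.sum_sub_distrib, Finset.sum_const, Finset.card_univ, nsmul_eq_mul, hq]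
      simp
      field_simp
    · simp only [ha, if_false]
      simp
  have hcol : ∀ i b, ∑ a, red q x i a b = if b = x i then 0 else q i / (q i - 1) := by
    intro i b
    have h1 : q i - 1 ≠ 0 := by linarith [hq1 i]
    unfold red
    have h2 : ∀ a : α i, (if a = x i then (if b = x i then (0:ℝ) else 1 / (q i - 1))
        else (if a = b then 1 else 0)) =
        (if a = x i then (if b = x i then (0:ℝ) else 1 / (q i - 1)) else 0) +
        (if a = b then (if b = x i then 0 else 1) else 0) := by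
      intro a
      by_cases ha : a = x i
      · by_cases hb : b = x i
        · simp [ha, hb]
        · have : ¬ x i = b := fun h => hb h.symm
          simp [ha, hb, this]
      · by_cases hb : b = x i
        · simp [ha, hb]
        · simp [ha, hb]
    simp_rw [h2]
    rw [Finset.sum_add_distrib]
    simp only [Finset.sum_ite_eq', Finset.mem_univ, if_true]
    split_ifs
    · simp
    · field_simp
      ring
  have h1 : ∀ ω, (T (red q x) V ω) ^ 2 ≤ ∑ η, (∏ i, red q x i (ω i) (η i)) * V η ^ 2 := by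
    intro ω
    unfold T
    have hsum : ∑ η : (∀ i, α i), ∏ i, red q x i (ω i) (η i) = 1 := by
      have h2 := Finset.prod_univ_sum (fun i => (Finset.univ : Finset (α i)))
        (fun i b => red q x i (ω i) b)
      rw [Fintype.piFinset_univ] at h2
      rw [← h2]
      exact Finset.prod_eq_one fun i _ => hrow i _
    have h3 := Finset.sum_sq_le_sum_mul_sum_of_sq_le_mul (Finset.univ : Finset (∀ i, α i))
      (r := fun η => (∏ i, red q x i (ω i) (η i)) * V η)
      (f := fun η => ∏ i, red q x i (ω i) (η i))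
      (g := fun η => (∏ i, red q x i (ω i) (η i)) * V η ^ 2)
      (fun η _ => Finset.prod_nonneg fun i _ => hnn i _ _)
      (fun η _ => mul_nonneg (Finset.prod_nonneg fun i _ => hnn i _ _) (sq_nonneg _))
      (fun η _ => le_of_eq (by ring))
    rw [hsum, one_mul] at h3
    exact h3
  have h4 : ∑ ω, (T (red q x) V ω) ^ 2 ≤
      ∑ η, (∏ i, (if η i = x i then 0 else q i / (q i - 1))) * V η ^ 2 := by
    refine (Finset.sum_le_sum fun ω _ => h1 ω).trans (le_of_eq ?_)
    rw [Finset.sum_comm]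
    refine Finset.sum_congr rfl fun η _ => ?_
    rw [← Finset.sum_mul]
    congr 1
    have h2 := Finset.prod_univ_sum (fun i => (Finset.univ : Finset (α i)))
      (fun i a => red q x i a (η i))
    rw [Fintype.piFinset_univ] at h2
    rw [← h2]
    exact Finset.prod_congr rfl fun i _ => hcol i _
  have hpos : 0 ≤ ∏ i, (1 - 1 / q i) := by
    apply Finset.prod_nonneg
    intro i _
    have h0 : 0 < q i := by linarith [hq1 i]
    have : 1 / q i ≤ 1 := by
      rw [div_le_one h0]; exact (hq1 i).le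
    linarith
  refine (mul_le_mul_of_nonneg_left h4 hpos).trans (le_of_eq ?_)
  rw [Finset.mul_sum, Finset.sum_filter]
  refine Finset.sum_congr rfl fun η _ => ?_
  split_ifs with h
  · have h5 : ∏ i, (if η i = x i then 0 else q i / (q i - 1)) = ∏ i, q i / (q i - 1) :=
      Finset.prod_congr rfl fun i _ => if_neg (h i)
    rw [h5, ← mul_assoc, ← Finset.prod_mul_distrib]
    have h6 : ∏ i, ((1 - 1 / q i) * (q i / (q i - 1))) = 1 := by
      apply Finset.prod_eq_one
      intro i _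
      have h0 : q i ≠ 0 := by linarith [hq1 i]
      have h1 : q i - 1 ≠ 0 := by linarith [hq1 i]
      field_simp
    rw [h6, one_mul]
  · push Not at h
    obtain ⟨i, hi⟩ := h
    rw [Finset.prod_eq_zero (f := fun i => if η i = x i then 0 else q i / (q i - 1))
      (Finset.mem_univ i) (if_pos hi)]
    ring

theorem T_mix_sq (q : ι → ℝ) (hq : ∀ i, (Fintype.card (α i) : ℝ) = q i) (hq1 : ∀ i, 1 < q i)
    (x : ∀ i, α i) (V : (∀ i, α i) → ℝ) (s : Finset ι) :
    ∑ ω, (T (mix s (Zm q x) (Xm q x)) V ω) ^ 2 =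
      (∏ i ∈ s, 1 / (q i - 1)) * Φ (mix s (pr q x) (Xm q x)) V := by
  have hX : IsProj (Xm q x) := (pr_proj q hq hq1 x).compl
  rw [T_sq _ (fun i b c => (if i ∈ s then 1 / (q i - 1) else 1) *
    mix s (pr q x) (Xm q x) i b c)]
  · unfold Φ
    rw [Finset.mul_sum]
    refine Finset.sum_congr rfl fun η _ => ?_
    rw [Finset.mul_sum]
    refine Finset.sum_congr rfl fun θ _ => ?_
    rw [Finset.prod_mul_distrib]
    have : ∏ i, (if i ∈ s then 1 / (q i - 1) else 1) = ∏ i ∈ s, 1 / (q i - 1) := by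
      rw [Finset.prod_ite_mem, Finset.univ_inter]
    rw [this]
    ring
  · intro i b c
    unfold mix
    split_ifs with hi
    · unfold Zm pr
      have h0 : q i ≠ 0 := by linarith [hq1 i]
      have h1 : q i - 1 ≠ 0 := by linarith [hq1 i]
      rw [Finset.sum_const, Finset.card_univ, nsmul_eq_mul, hq]
      generalize (if b = x i then (1:ℝ) else 0) = u
      generalize (if c = x i then (1:ℝ) else 0) = v
      field_simp
    · rw [one_mul]
      exact hX.1 i b c

theorem one_shift (q : ι → ℝ) (hq : ∀ i, (Fintype.card (α i) : ℝ) = q i) (hq1 : ∀ i, 1 < q i)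
    (x : ∀ i, α i) (ell : ι → ℝ) (m : ℝ) (hm : 0 < m) (hell : ∀ i, m ≤ ell i)
    (𝓛 : Finset ι → Prop) [DecidablePred 𝓛] (B : ℝ)
    (hB : ∑ s ∈ (univ : Finset ι).powerset with (𝓛 s ∧ s.Nonempty),
      1 / ((∏ i ∈ s, (q i - 1)) * ∑ i ∈ s, ell i) ≤ B) (θ : ℝ) (hθ : 0 < θ) (hθ1 : θ < 1)
    (V : (∀ i, α i) → ℝ) (hV : Lev 𝓛 V) :
    (∏ i, (1 - 1 / q i)) * ((1 - θ) * (∑ ω, V ω ^ 2 - (∑ i, ell i * Φ (at1 i (pr q x)) V) / m) -
      (1 / θ - 1) * B * ∑ i, ell i * Φ (at1 i (pr q x)) V) ≤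
      ∑ ω with (∀ i, ω i ≠ x i), V ω ^ 2 := by
  have hpr : IsProj (pr q x) := pr_proj q hq hq1 x
  have hX : IsProj (Xm q x) := hpr.compl
  have hsum1 : ∀ i a b, pr q x i a b + Xm q x i a b = one i a b := by
    intro i a b; unfold Xm; ring
  have hpos : 0 ≤ ∏ i, (1 - 1 / q i) := by
    apply Finset.prod_nonneg
    intro i _
    have h0 : 0 < q i := by linarith [hq1 i]
    have : 1 / q i ≤ 1 := by
      rw [div_le_one h0]; exact (hq1 i).le
    linarith
  refine le_trans (mul_le_mul_of_nonneg_left ?_ hpos) (Jensen q hq hq1 x V)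
  set cost := ∑ i, ell i * Φ (at1 i (pr q x)) V with hcost
  have hcost' : cost = ∑ s ∈ (univ : Finset ι).powerset, (∑ i ∈ s, ell i) *
      Φ (mix s (pr q x) (Xm q x)) V := (sum_ell_Φ_mix _ _ hsum1 ell V).symm
  have hΦ0 : ∀ s, 0 ≤ Φ (mix s (pr q x) (Xm q x)) V := fun s => (hpr.mix hX s).Φ_nonneg V
  have hells : ∀ s : Finset ι, s.Nonempty → m ≤ ∑ i ∈ s, ell i := by
    intro s hs
    obtain ⟨i, hi⟩ := hs
    exact (hell i).trans (Finset.single_le_sum (f := ell)
      (fun j _ => (hm.le.trans (hell j))) hi)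
  have hells0 : ∀ s : Finset ι, 0 ≤ ∑ i ∈ s, ell i := fun s =>
    Finset.sum_nonneg fun j _ => (hm.le.trans (hell j))
  set P' := (univ : Finset ι).powerset.filter (fun s => 𝓛 s ∧ s.Nonempty) with hP'
  set F : Finset ι → (∀ i, α i) → ℝ := fun s ω => T (mix s (Zm q x) (Xm q x)) V ω with hF
  -- expansion
  have hexp : ∀ ω, T (red q x) V ω = F ∅ ω + ∑ s ∈ P', (-1 : ℝ) ^ s.card * F s ω := by
    intro ω
    have e1 : T (red q x) V ω =
        ∑ s ∈ (univ : Finset ι).powerset, (-1 : ℝ) ^ s.card * F s ω := by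
      simp only [hF]
      unfold T
      have : ∀ η : (∀ i, α i), ∏ i, red q x i (ω i) (η i) = ∑ s ∈ (univ : Finset ι).powerset,
          (-1 : ℝ) ^ s.card * ∏ i, mix s (Zm q x) (Xm q x) i (ω i) (η i) := by
        intro η
        rw [sum_mix_neg]
        exact Finset.prod_congr rfl fun i _ => red_eq q hq1 x i _ _
      simp_rw [this, Finset.sum_mul, Finset.mul_sum]
      rw [Finset.sum_comm]
      refine Finset.sum_congr rfl fun s _ => Finset.sum_congr rfl fun η _ => by ring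
    have e2 : ∑ s ∈ (univ : Finset ι).powerset, (-1 : ℝ) ^ s.card * F s ω =
        ∑ s ∈ insert ∅ P', (-1 : ℝ) ^ s.card * F s ω := by
      symm
      apply Finset.sum_subset
      · intro s _
        exact Finset.mem_powerset.2 (Finset.subset_univ _)
      · intro s hs1 hs2
        rw [Finset.mem_insert, not_or] at hs2
        have hne : s.Nonempty := Finset.nonempty_iff_ne_empty.2 hs2.1
        have hnL : ¬ 𝓛 s := by
          intro hL
          exact hs2.2 (Finset.mem_filter.2 ⟨hs1, hL, hne⟩)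
        have : F s ω = 0 := by
          apply hV s hnL
          intro i hi a
          unfold mix Zm
          simp only [hi, if_true]
          exact sum_mul_ind i q hq _ _
        rw [this, mul_zero]
    rw [e1, e2, Finset.sum_insert]
    · simp
    · simp [hP']
  -- the main part
  have hmain : ∑ ω, F ∅ ω ^ 2 = Φ (mix ∅ (pr q x) (Xm q x)) V := by
    have := T_mix_sq q hq hq1 x V ∅
    simpa using this
  have hmain2 : ∑ ω, V ω ^ 2 - cost / m ≤ ∑ ω, F ∅ ω ^ 2 := by
    rw [hmain, ← sum_Φ_mix (pr q x) (Xm q x) hsum1 V,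
      ← Finset.sum_erase_add _ _ (Finset.empty_mem_powerset (univ : Finset ι))]
    have : ∑ s ∈ (univ : Finset ι).powerset.erase ∅, Φ (mix s (pr q x) (Xm q x)) V ≤ cost / m := by
      rw [hcost', Finset.sum_div]
      refine (Finset.sum_le_sum fun s hs => ?_).trans
        (Finset.sum_le_sum_of_subset_of_nonneg (Finset.erase_subset _ _) ?_)
      · have hne : s.Nonempty := Finset.nonempty_iff_ne_empty.2 (Finset.ne_of_mem_erase hs)
        have h1 := hells s hne
        rw [le_div_iff₀ hm, mul_comm]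
        exact mul_le_mul_of_nonneg_right h1 (hΦ0 s)
      · intro s _ _
        exact div_nonneg (mul_nonneg (hells0 s) (hΦ0 s)) hm.le
    linarith
  -- the correction
  set g : (∀ i, α i) → ℝ := fun ω => ∑ s ∈ P', (-1 : ℝ) ^ s.card * F s ω with hg
  set φ : Finset ι → ℝ := fun s => ∏ i ∈ s, (q i - 1) with hφ
  have hφ0 : ∀ s, 0 < φ s := fun s => Finset.prod_pos fun i _ => by linarith [hq1 i]
  have hP'ne : ∀ s ∈ P', s.Nonempty := fun s hs => (Finset.mem_filter.1 hs).2.2
  have hg2 : ∑ ω, g ω ^ 2 ≤ B * cost := by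
    have h1 : ∀ ω, g ω ^ 2 ≤ (∑ s ∈ P', 1 / (φ s * ∑ i ∈ s, ell i)) *
        ∑ s ∈ P', (φ s * ∑ i ∈ s, ell i) * F s ω ^ 2 := by
      intro ω
      refine Finset.sum_sq_le_sum_mul_sum_of_sq_le_mul P' ?_ ?_ ?_
      · intro s hs
        have := hells0 s
        have := hφ0 s
        positivity
      · intro s hs
        have := hells0 s
        have := hφ0 s
        positivity
      · intro s hs
        have h2 : 0 < ∑ i ∈ s, ell i := hm.trans_le (hells s (hP'ne s hs))
        have h3 := hφ0 s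
        have h4 : ((-1 : ℝ) ^ s.card) ^ 2 = 1 := by
          rw [← pow_mul, mul_comm, pow_mul]; simp
        rw [mul_pow, h4]
        apply le_of_eq
        field_simp
    have h2 : ∑ ω, g ω ^ 2 ≤ (∑ s ∈ P', 1 / (φ s * ∑ i ∈ s, ell i)) *
        ∑ s ∈ P', (∑ i ∈ s, ell i) * Φ (mix s (pr q x) (Xm q x)) V := by
      refine (Finset.sum_le_sum fun ω _ => h1 ω).trans (le_of_eq ?_)
      rw [← Finset.mul_sum, Finset.sum_comm]
      congr 1
      refine Finset.sum_congr rfl fun s hs => ?_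
      rw [← Finset.mul_sum, T_mix_sq q hq hq1 x V s]
      have h3 : (∏ i ∈ s, 1 / (q i - 1)) = 1 / φ s := by
        rw [hφ, Finset.prod_div_distrib]
        simp
      rw [h3]
      have h4 := (hφ0 s).ne'
      field_simp
    refine h2.trans ?_
    have h5 : ∑ s ∈ P', (∑ i ∈ s, ell i) * Φ (mix s (pr q x) (Xm q x)) V ≤ cost := by
      rw [hcost']
      exact Finset.sum_le_sum_of_subset_of_nonneg (Finset.filter_subset _ _)
        fun s _ _ => mul_nonneg (hells0 s) (hΦ0 s)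
    have h6 : 0 ≤ ∑ s ∈ P', (∑ i ∈ s, ell i) * Φ (mix s (pr q x) (Xm q x)) V :=
      Finset.sum_nonneg fun s _ => mul_nonneg (hells0 s) (hΦ0 s)
    have h7 : 0 ≤ ∑ s ∈ P', 1 / (φ s * ∑ i ∈ s, ell i) :=
      Finset.sum_nonneg fun s _ => by
        have := hells0 s
        have := hφ0 s
        positivity
    exact mul_le_mul hB h5 h6 (h7.trans hB)
  -- conclusion
  have hfin : ∀ ω, (1 - θ) * F ∅ ω ^ 2 - (1 / θ - 1) * g ω ^ 2 ≤ T (red q x) V ω ^ 2 := by
    intro ω
    rw [hexp ω]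
    show _ ≤ (F ∅ ω + g ω) ^ 2
    have h1 : 0 ≤ (θ * F ∅ ω + g ω) ^ 2 / θ := by positivity
    have h2 : (F ∅ ω + g ω) ^ 2 - ((1 - θ) * F ∅ ω ^ 2 - (1 / θ - 1) * g ω ^ 2) =
        (θ * F ∅ ω + g ω) ^ 2 / θ := by
      field_simp
      ring
    linarith
  have h8 : (1 - θ) * ∑ ω, F ∅ ω ^ 2 - (1 / θ - 1) * ∑ ω, g ω ^ 2 ≤
      ∑ ω, T (red q x) V ω ^ 2 := by
    rw [Finset.mul_sum, Finset.mul_sum, ← Finset.sum_sub_distrib]
    exact Finset.sum_le_sum fun ω _ => hfin ω
  refine le_trans ?_ h8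
  have h9 : 0 ≤ 1 / θ - 1 := by
    rw [sub_nonneg, le_div_iff₀ hθ]; linarith
  have h10 := mul_le_mul_of_nonneg_left hg2 h9
  have h11 := mul_le_mul_of_nonneg_left hmain2 (by linarith : (0:ℝ) ≤ 1 - θ)
  have h12 : (1 / θ - 1) * B * cost = (1 / θ - 1) * (B * cost) := by ring
  rw [h12]
  linarith

theorem cost_total {κ : Type} [Fintype κ] [DecidableEq κ] (q : ι → ℝ)
    (hq : ∀ i, (Fintype.card (α i) : ℝ) = q i) (hq1 : ∀ i, 1 < q i) (ρ : ℝ)
    (hρ : ∀ i, q i / (q i - 1) ≤ ρ) (x : κ → ∀ i, α i)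
    (hx : ∀ i, Function.Injective (fun k => x k i)) (ell : ι → ℝ) (hell : ∀ i, 0 ≤ ell i)
    (𝓛 : Finset ι → Prop) [DecidablePred 𝓛] (Lg : ℝ) (hρ0 : 0 ≤ ρ)
    (hLg : ∀ s, 𝓛 s → ∑ i ∈ s, ell i ≤ Lg) (V : (∀ i, α i) → ℝ) (hV : Lev 𝓛 V) :
    ∑ k, ∑ i, ell i * Φ (at1 i (pr q (x k))) V ≤ ρ * Lg * ∑ ω, V ω ^ 2 := by
  have hq0 : ∀ i, 0 < q i := fun i => by linarith [hq1 i]
  have hav : IsProj (av q : ∀ i, α i → α i → ℝ) := av_proj q hq hq0
  set cav : ∀ i, α i → α i → ℝ := fun i a b => one i a b - av q i a b with hcav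
  have hcavP : IsProj cav := hav.compl
  have hsum1 : ∀ i a b, cav i a b + av q i a b = one i a b := by
    intro i a b; simp [hcav]
  have h1 : ∑ k, ∑ i, ell i * Φ (at1 i (pr q (x k))) V ≤ ∑ i, ell i * (ρ * Φ (at1 i cav) V) := by
    rw [Finset.sum_comm]
    refine Finset.sum_le_sum fun i _ => ?_
    rw [← Finset.mul_sum]
    exact mul_le_mul_of_nonneg_left (sum_pr_le q hq hq1 ρ hρ x i (hx i) V) (hell i)
  refine h1.trans ?_
  have h2 : ∑ i, ell i * (ρ * Φ (at1 i cav) V) =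
      ρ * ∑ s ∈ (univ : Finset ι).powerset, (∑ i ∈ s, ell i) * Φ (mix s cav (av q)) V := by
    rw [sum_ell_Φ_mix cav (av q) hsum1 ell V, Finset.mul_sum]
    exact Finset.sum_congr rfl fun i _ => by ring
  rw [h2, mul_assoc]
  refine mul_le_mul_of_nonneg_left ?_ hρ0
  rw [← sum_Φ_mix cav (av q) hsum1 V, Finset.mul_sum]
  refine Finset.sum_le_sum fun s _ => ?_
  by_cases hs : 𝓛 s
  · exact mul_le_mul_of_nonneg_right (hLg s hs) ((hcavP.mix hav s).Φ_nonneg V)
  · have : Φ (mix s cav (av q)) V = 0 := by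
      rw [(hcavP.mix hav s).Φ_eq]
      apply Finset.sum_eq_zero
      intro ω _
      rw [hV s hs]
      · simp
      · intro i hi a
        unfold mix
        simp only [hi, if_true, hcav, one, av]
        rw [Finset.sum_sub_distrib, Finset.sum_const, Finset.card_univ, nsmul_eq_mul, hq]
        have := (hq0 i).ne'
        simp
        field_simp
        ring
    rw [this]
    simp

/-- **The barrier inequality** -/
theorem abs_barrier {κ : Type} [Fintype κ] [DecidableEq κ] (q : ι → ℝ)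
    (hq : ∀ i, (Fintype.card (α i) : ℝ) = q i) (hq1 : ∀ i, 1 < q i) (ρ : ℝ) (hρ0 : 0 ≤ ρ)
    (hρ : ∀ i, q i / (q i - 1) ≤ ρ) (x : κ → ∀ i, α i)
    (hx : ∀ i, Function.Injective (fun k => x k i)) (ell : ι → ℝ) (m : ℝ) (hm : 0 < m)
    (hell : ∀ i, m ≤ ell i) (𝓛 : Finset ι → Prop) [DecidablePred 𝓛] (Lg : ℝ)
    (hLg : ∀ s, 𝓛 s → ∑ i ∈ s, ell i ≤ Lg) (B : ℝ)
    (hB : ∑ s ∈ (univ : Finset ι).powerset with (𝓛 s ∧ s.Nonempty),
      1 / ((∏ i ∈ s, (q i - 1)) * ∑ i ∈ s, ell i) ≤ B) (θ : ℝ) (hθ : 0 < θ) (hθ1 : θ < 1)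
    (V : (∀ i, α i) → ℝ) (hV : Lev 𝓛 V) :
    (∏ i, (1 - 1 / q i)) * (((1 - θ) * (Fintype.card κ - ρ * Lg / m) -
      (1 / θ - 1) * B * (ρ * Lg)) * ∑ ω, V ω ^ 2) ≤
      ∑ k, ∑ ω with (∀ i, ω i ≠ x k i), V ω ^ 2 := by
  have hpos : 0 ≤ ∏ i, (1 - 1 / q i) := by
    apply Finset.prod_nonneg
    intro i _
    have h0 : 0 < q i := by linarith [hq1 i]
    have : 1 / q i ≤ 1 := by
      rw [div_le_one h0]; exact (hq1 i).le
    linarith
  have h1 := Finset.sum_le_sum fun k (_ : k ∈ (univ : Finset κ)) =>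
    one_shift q hq hq1 (x k) ell m hm hell 𝓛 B hB θ hθ hθ1 V hV
  refine le_trans ?_ h1
  rw [← Finset.mul_sum]
  refine mul_le_mul_of_nonneg_left ?_ hpos
  have hct := cost_total q hq hq1 ρ hρ x hx ell (fun i => hm.le.trans (hell i)) 𝓛 Lg hρ0 hLg V hV
  have hB0 : 0 ≤ B := by
    refine le_trans (Finset.sum_nonneg fun s _ => ?_) hB
    have h1 : 0 ≤ ∏ i ∈ s, (q i - 1) := Finset.prod_nonneg fun i _ => by linarith [hq1 i]
    have h2 : 0 ≤ ∑ i ∈ s, ell i := Finset.sum_nonneg fun i _ => hm.le.trans (hell i)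
    positivity
  set C := ∑ k, ∑ i, ell i * Φ (at1 i (pr q (x k))) V with hC
  have h2 : ∑ k, ((1 - θ) * (∑ ω, V ω ^ 2 - (∑ i, ell i * Φ (at1 i (pr q (x k))) V) / m) -
      (1 / θ - 1) * B * ∑ i, ell i * Φ (at1 i (pr q (x k))) V) =
      (1 - θ) * (Fintype.card κ * ∑ ω, V ω ^ 2 - C / m) - (1 / θ - 1) * B * C := by
    rw [Finset.sum_sub_distrib, ← Finset.mul_sum, ← Finset.mul_sum, Finset.sum_sub_distrib,
      ← Finset.sum_div, Finset.sum_const, Finset.card_univ, nsmul_eq_mul]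
  rw [h2]
  have h9 : 0 ≤ 1 / θ - 1 := by
    rw [sub_nonneg, le_div_iff₀ hθ]; linarith
  have h3 : C / m ≤ ρ * Lg * (∑ ω, V ω ^ 2) / m := div_le_div_of_nonneg_right hct hm.le
  have h4 : (1 / θ - 1) * B * C ≤ (1 / θ - 1) * B * (ρ * Lg * ∑ ω, V ω ^ 2) :=
    mul_le_mul_of_nonneg_left hct (mul_nonneg h9 hB0)
  have h5 : (1 - θ) * (C / m) ≤ (1 - θ) * (ρ * Lg * (∑ ω, V ω ^ 2) / m) :=
    mul_le_mul_of_nonneg_left h3 (by linarith)
  have h6 : ((1 - θ) * (Fintype.card κ - ρ * Lg / m) -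
      (1 / θ - 1) * B * (ρ * Lg)) * ∑ ω, V ω ^ 2 =
      (1 - θ) * (Fintype.card κ * ∑ ω, V ω ^ 2) - (1 - θ) * (ρ * Lg * (∑ ω, V ω ^ 2) / m) -
      (1 / θ - 1) * B * (ρ * Lg * ∑ ω, V ω ^ 2) := by ring
  rw [h6]
  linarith

end Pool.Agent.K4H10.BR
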