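import Pool.Agent.K4H10.BR.Smooth

set_option autoImplicit false
set_option linter.unusedSectionVars false

/-! # Upper bound for the sum that determines the cost of one shift -/

namespace Pool.Agent.K4H10.BR

open Finset Pool.Agent.K4H10.EX

open scoped Classical

/-- layer cake for `1/t` -/
theorem lay (τ : ℝ) (hτ : 0 < τ) (J : ℕ) (t : ℝ) (ht : 1 ≤ t) (htJ : t ≤ Real.exp (J * τ)) :
    1 / t ≤ ∑ i ∈ range J, (Real.exp (-(i * τ)) - Real.exp (-((i + 1 : ℕ) * τ))) *
      (if t ≤ Real.exp ((i + 1 : ℕ) * τ) then 1 else 0) + Real.exp (-(J * τ)) := by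
  have hc : ∀ i : ℕ, 0 ≤ Real.exp (-(i * τ)) - Real.exp (-((i + 1 : ℕ) * τ)) := by
    intro i
    rw [sub_nonneg]
    apply Real.exp_le_exp.2
    push_cast
    nlinarith
  induction J with
  | zero =>
    have h1 : t = 1 := by
      simp at htJ
      linarith
    rw [h1]
    simp
  | succ J ih =>
    rw [Finset.sum_range_succ]
    by_cases h : t ≤ Real.exp (J * τ)
    · have h2 : t ≤ Real.exp ((J + 1 : ℕ) * τ) := by
        refine h.trans (Real.exp_le_exp.2 ?_)
        push_cast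
        nlinarith
      rw [if_pos h2]
      have := ih h
      linarith
    · push Not at h
      rw [if_pos htJ]
      have h3 : 0 ≤ ∑ i ∈ range J, (Real.exp (-(i * τ)) - Real.exp (-((i + 1 : ℕ) * τ))) *
          (if t ≤ Real.exp ((i + 1 : ℕ) * τ) then (1:ℝ) else 0) := by
        apply Finset.sum_nonneg
        intro i _
        apply mul_nonneg (hc i)
        split_ifs <;> norm_num
      have h4 : 1 / t ≤ Real.exp (-(J * τ)) := by
        rw [Real.exp_neg, one_div]
        exact inv_anti₀ (Real.exp_pos _) h.le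
      linarith

theorem bern (w : ℝ) (hw : 1 < w) (s : Finset ℕ) (hs : ∀ p ∈ s, w < (p : ℕ)) :
    (1 - s.card / w) * ∏ p ∈ s, (p : ℝ) ≤ ∏ p ∈ s, ((p : ℝ) - 1) := by
  have h0 : 0 < w := by linarith
  have h1 : ∏ p ∈ s, ((p : ℝ) * (1 - 1 / w)) ≤ ∏ p ∈ s, ((p : ℝ) - 1) := by
    apply Finset.prod_le_prod
    · intro p hp
      have : 0 ≤ 1 - 1 / w := by
        rw [sub_nonneg, div_le_one h0]; exact hw.le
      positivity
    · intro p hp
      have h2 := hs p hp
      have h3 : 1 ≤ (p : ℝ) * (1 / w) := by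
        rw [mul_one_div, le_div_iff₀ h0]; linarith
      linarith [mul_sub (p : ℝ) 1 (1 / w)]
  refine le_trans ?_ h1
  rw [Finset.prod_mul_distrib, Finset.prod_const, mul_comm]
  apply mul_le_mul_of_nonneg_left _ (Finset.prod_nonneg fun p _ => Nat.cast_nonneg p)
  have h4 : (-2 : ℝ) ≤ -(1 / w) := by
    have : 1 / w ≤ 1 := by rw [div_le_one h0]; exact hw.le
    linarith
  have h5 := one_add_mul_le_pow h4 s.card
  calc 1 - (s.card : ℝ) / w = 1 + s.card * -(1 / w) := by ring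
    _ ≤ (1 + -(1 / w)) ^ s.card := h5
    _ = (1 - 1 / w) ^ s.card := by ring_nf

theorem log_sum_upper (ε : ℝ) (hε : 0 < ε) (hε1 : ε ≤ 1) : ∃ C w₀ : ℝ, 0 < C ∧ 3 ≤ w₀ ∧
    ∀ w : ℝ, w₀ ≤ w → ∀ S : Finset ℕ, (∀ p ∈ S, p.Prime ∧ w < p) → ∀ x : ℝ, Real.log w ≤ x →
    x ≤ w →
    ∑ s ∈ S.powerset.filter (fun s : Finset ℕ => ∑ p ∈ s, Real.log (p : ℕ) ≤ x ∧ s.Nonempty),
      1 / ((∏ p ∈ s, ((p : ℝ) - 1)) * ∑ p ∈ s, Real.log (p : ℕ)) ≤
      ((1 + ε) * Real.log (x / Real.log w) + C) / MP w := by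
  set τ : ℝ := ε / 8 with hτ
  have hτ0 : 0 < τ := by positivity
  have hτ1 : τ ≤ 1 / 8 := by rw [hτ]; linarith
  obtain ⟨A, hA1, hru⟩ := rough_upper τ hτ0 (by linarith)
  refine ⟨2 * (2 * A + 3), max 3 (Real.exp (8 / ε)), by linarith, le_max_left _ _,
    fun w hw S hS x hx hxw => ?_⟩
  have hw3 : 3 ≤ w := (le_max_left _ _).trans hw
  have hw0 : 0 < w := by linarith
  have hlw8 : 8 / ε ≤ Real.log w := by
    rw [Real.le_log_iff_exp_le hw0]
    exact (le_max_right _ _).trans hw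
  have hlw1 : 1 ≤ Real.log w := by
    refine le_trans ?_ hlw8
    rw [le_div_iff₀ hε]; linarith
  have hlw0 : 0 < Real.log w := by linarith
  have hM := MP_pos w
  set W := S.powerset.filter (fun s : Finset ℕ => ∑ p ∈ s, Real.log (p : ℕ) ≤ x ∧ s.Nonempty)
    with hW
  set l0 := Real.log w with hl0
  have hWp : ∀ s ∈ W, ∀ p ∈ s, p.Prime ∧ w < (p : ℕ) := by
    intro s hs p hp
    rw [hW, mem_filter, mem_powerset] at hs
    exact hS p (hs.1 hp)
  have hlp : ∀ s ∈ W, ∀ p ∈ s, l0 ≤ Real.log (p : ℕ) := by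
    intro s hs p hp
    exact Real.log_le_log hw0 (hWp s hs p hp).2.le
  have hell : ∀ s ∈ W, l0 ≤ ∑ p ∈ s, Real.log (p : ℕ) := by
    intro s hs
    obtain ⟨p, hp⟩ := (mem_filter.1 hs).2.2
    exact (hlp s hs p hp).trans (Finset.single_le_sum (f := fun p : ℕ => Real.log (p : ℕ))
      (fun q hq => hlw0.le.trans (hlp s hs q hq)) hp)
  have hellx : ∀ s ∈ W, ∑ p ∈ s, Real.log (p : ℕ) ≤ x := fun s hs => (mem_filter.1 hs).2.1
  -- step 1: the denominators
  have hφ : ∀ s ∈ W, (1 - τ) * ∏ p ∈ s, (p : ℝ) ≤ ∏ p ∈ s, ((p : ℝ) - 1) := by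
    intro s hs
    refine le_trans ?_ (bern w (by linarith) s fun p hp => (hWp s hs p hp).2)
    apply mul_le_mul_of_nonneg_right _ (Finset.prod_nonneg fun p _ => Nat.cast_nonneg p)
    have h1 : (s.card : ℝ) * l0 ≤ w := by
      calc (s.card : ℝ) * l0 = ∑ p ∈ s, l0 := by rw [Finset.sum_const, nsmul_eq_mul]
        _ ≤ ∑ p ∈ s, Real.log (p : ℕ) := Finset.sum_le_sum fun p hp => hlp s hs p hp
        _ ≤ x := hellx s hs
        _ ≤ w := hxw
    have h2 : (s.card : ℝ) / w ≤ τ := by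
      rw [div_le_iff₀ hw0]
      have h3 : 1 ≤ τ * l0 := by
        rw [hτ]
        have := (div_le_iff₀ hε).1 hlw8
        linarith
      have h4 : (0:ℝ) ≤ s.card := Nat.cast_nonneg _
      calc (s.card : ℝ) ≤ s.card * (τ * l0) := by nlinarith
        _ = τ * (s.card * l0) := by ring
        _ ≤ τ * w := by nlinarith
    linarith
  have hppos : ∀ s ∈ W, 0 < ∏ p ∈ s, (p : ℝ) := fun s hs => Finset.prod_pos fun p hp => by
    have := (hWp s hs p hp).1.pos
    positivity
  -- step 2: the layer cake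
  set J : ℕ := ⌈Real.log (x / l0) / τ⌉₊ with hJ
  have hxl : 1 ≤ x / l0 := by rw [le_div_iff₀ hlw0]; linarith
  have hΛ0 : 0 ≤ Real.log (x / l0) := Real.log_nonneg hxl
  have hJ1 : Real.log (x / l0) ≤ J * τ := by
    have := Nat.le_ceil (Real.log (x / l0) / τ)
    rw [← hJ, div_le_iff₀ hτ0] at this
    exact this
  have hJ2 : (J : ℝ) ≤ Real.log (x / l0) / τ + 1 :=
    (Nat.ceil_lt_add_one (div_nonneg hΛ0 hτ0.le)).le
  have hxJ : x / l0 ≤ Real.exp (J * τ) := by
    rw [← Real.exp_log (show 0 < x / l0 by linarith)]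
    exact Real.exp_le_exp.2 hJ1
  set cc : ℕ → ℝ := fun i => Real.exp (-(i * τ)) - Real.exp (-((i + 1 : ℕ) * τ)) with hcc
  have hcc0 : ∀ i, 0 ≤ cc i := by
    intro i
    simp only [hcc]
    rw [sub_nonneg]
    apply Real.exp_le_exp.2
    push_cast
    nlinarith
  set R : ℝ → ℝ := fun y => ∑ s ∈ S.powerset.filter
    (fun s : Finset ℕ => ∑ p ∈ s, Real.log (p : ℕ) ≤ y), ∏ p ∈ s, 1 / (p : ℝ) with hR
  have hRle : ∀ y, 0 ≤ y → R y ≤ (1 + τ) * (y + A * l0) / MP w := fun y hy =>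
    hru w hw3 S hS y hy
  have hD : ∑ s ∈ W, (∏ p ∈ s, 1 / (p : ℝ)) / ∑ p ∈ s, Real.log (p : ℕ) ≤
      1 / l0 * (∑ i ∈ range J, cc i * R (l0 * Real.exp ((i + 1 : ℕ) * τ)) +
        Real.exp (-(J * τ)) * R x) := by
    have h1 : ∀ s ∈ W, (∏ p ∈ s, 1 / (p : ℝ)) / ∑ p ∈ s, Real.log (p : ℕ) ≤
        1 / l0 * (∑ i ∈ range J, cc i * (if ∑ p ∈ s, Real.log (p : ℕ) ≤
          l0 * Real.exp ((i + 1 : ℕ) * τ) then ∏ p ∈ s, 1 / (p : ℝ) else 0) +
          Real.exp (-(J * τ)) * ∏ p ∈ s, 1 / (p : ℝ)) := by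
      intro s hs
      have h2 := lay τ hτ0 J ((∑ p ∈ s, Real.log (p : ℕ)) / l0)
        (by rw [le_div_iff₀ hlw0]; linarith [hell s hs])
        ((div_le_div_of_nonneg_right (hellx s hs) hlw0.le).trans hxJ)
      have h3 : 0 ≤ ∏ p ∈ s, 1 / (p : ℝ) := by positivity
      have hl : 0 < ∑ p ∈ s, Real.log (p : ℕ) := hlw0.trans_le (hell s hs)
      calc (∏ p ∈ s, 1 / (p : ℝ)) / ∑ p ∈ s, Real.log (p : ℕ)
          = 1 / l0 * ((∏ p ∈ s, 1 / (p : ℝ)) * (1 / ((∑ p ∈ s, Real.log (p : ℕ)) / l0))) := by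
            field_simp
        _ ≤ 1 / l0 * ((∏ p ∈ s, 1 / (p : ℝ)) * (∑ i ∈ range J, (Real.exp (-(i * τ)) -
              Real.exp (-((i + 1 : ℕ) * τ))) * (if (∑ p ∈ s, Real.log (p : ℕ)) / l0 ≤
                Real.exp ((i + 1 : ℕ) * τ) then 1 else 0) + Real.exp (-(J * τ)))) := by
            gcongr
        _ = _ := by
            congr 1
            rw [mul_add, Finset.mul_sum]
            congr 1
            · refine Finset.sum_congr rfl fun i _ => ?_
              have h4 : (∑ p ∈ s, Real.log (p : ℕ)) / l0 ≤ Real.exp ((i + 1 : ℕ) * τ) ↔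
                  ∑ p ∈ s, Real.log (p : ℕ) ≤ l0 * Real.exp ((i + 1 : ℕ) * τ) := by
                rw [div_le_iff₀ hlw0, mul_comm]
              by_cases h5 : ∑ p ∈ s, Real.log (p : ℕ) ≤ l0 * Real.exp ((i + 1 : ℕ) * τ)
              · rw [if_pos (h4.2 h5), if_pos h5]
                simp only [hcc]
                ring
              · rw [if_neg (fun h => h5 (h4.1 h)), if_neg h5]
                ring
            · ring
    refine (Finset.sum_le_sum h1).trans ?_
    rw [← Finset.mul_sum, Finset.sum_add_distrib, Finset.sum_comm]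
    apply mul_le_mul_of_nonneg_left _ (by positivity)
    apply add_le_add
    · apply Finset.sum_le_sum
      intro i _
      rw [← Finset.mul_sum]
      apply mul_le_mul_of_nonneg_left _ (hcc0 i)
      rw [← Finset.sum_filter]
      apply Finset.sum_le_sum_of_subset_of_nonneg
      · intro s hs
        rw [mem_filter] at hs ⊢
        exact ⟨(mem_filter.1 hs.1).1, hs.2⟩
      · intro s _ _; positivity
    · rw [← Finset.mul_sum]
      apply mul_le_mul_of_nonneg_left _ (Real.exp_pos _).le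
      apply Finset.sum_le_sum_of_subset_of_nonneg
      · intro s hs
        rw [mem_filter]
        exact ⟨(mem_filter.1 hs).1, hellx s hs⟩
      · intro s _ _; positivity
  -- step 3: the bounds for R
  have hx0 : 0 ≤ x := by linarith
  have h3 : ∑ i ∈ range J, cc i * R (l0 * Real.exp ((i + 1 : ℕ) * τ)) +
        Real.exp (-(J * τ)) * R x ≤ l0 * ((1 + τ) / MP w * (J * (Real.exp τ - 1) + 2 * A + 1)) := by
    have e1 : ∑ i ∈ range J, cc i * R (l0 * Real.exp ((i + 1 : ℕ) * τ)) ≤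
        ∑ i ∈ range J, l0 * ((1 + τ) / MP w * ((Real.exp τ - 1) + A * cc i)) := by
      apply Finset.sum_le_sum
      intro i _
      have e2 := hRle (l0 * Real.exp ((i + 1 : ℕ) * τ)) (by positivity)
      refine (mul_le_mul_of_nonneg_left e2 (hcc0 i)).trans (le_of_eq ?_)
      have e3 : cc i * Real.exp ((i + 1 : ℕ) * τ) = Real.exp τ - 1 := by
        simp only [hcc]
        rw [sub_mul, ← Real.exp_add, ← Real.exp_add]
        have : -(((i + 1 : ℕ) : ℝ) * τ) + ((i + 1 : ℕ) : ℝ) * τ = 0 := by ring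
        rw [this, Real.exp_zero]
        congr 2
        push_cast
        ring
      rw [← e3]
      ring
    have e4 : ∑ i ∈ range J, l0 * ((1 + τ) / MP w * ((Real.exp τ - 1) + A * cc i)) =
        l0 * ((1 + τ) / MP w * (J * (Real.exp τ - 1) + A * (1 - Real.exp (-(J * τ))))) := by
      rw [← Finset.mul_sum, ← Finset.mul_sum, Finset.sum_add_distrib, Finset.sum_const,
        Finset.card_range, nsmul_eq_mul, ← Finset.mul_sum]
      have e5 : ∑ i ∈ range J, cc i = 1 - Real.exp (-(J * τ)) := by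
        simp only [hcc]
        have := Finset.sum_range_sub' (fun i : ℕ => Real.exp (-((i : ℝ) * τ))) J
        simpa using this
      rw [e5]
    have e6 : Real.exp (-(J * τ)) * R x ≤ l0 * ((1 + τ) / MP w * (1 + A)) := by
      have e7 := hRle x hx0
      have e8 : x ≤ l0 * Real.exp (J * τ) := by
        rw [div_le_iff₀ hlw0] at hxJ
        linarith
      have e9 : Real.exp (-(J * τ)) ≤ 1 := Real.exp_le_one_iff.2 (by
        have : 0 ≤ (J:ℝ) * τ := by positivity
        linarith)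
      have e10 : Real.exp (-(J * τ)) * Real.exp (J * τ) = 1 := by
        rw [← Real.exp_add]; simp
      have e11 : 0 < Real.exp (-(J * τ)) := Real.exp_pos _
      calc Real.exp (-(J * τ)) * R x ≤ Real.exp (-(J * τ)) * ((1 + τ) * (x + A * l0) / MP w) :=
            mul_le_mul_of_nonneg_left e7 e11.le
        _ = (1 + τ) / MP w * (Real.exp (-(J * τ)) * (x + A * l0)) := by ring
        _ ≤ (1 + τ) / MP w * (l0 * (1 + A)) := by
            apply mul_le_mul_of_nonneg_left _ (by positivity)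
            calc Real.exp (-(J * τ)) * (x + A * l0)
                = Real.exp (-(J * τ)) * x + Real.exp (-(J * τ)) * (A * l0) := by ring
              _ ≤ Real.exp (-(J * τ)) * (l0 * Real.exp (J * τ)) + 1 * (A * l0) := by
                  gcongr
              _ = l0 * (Real.exp (-(J * τ)) * Real.exp (J * τ)) + A * l0 := by ring
              _ = l0 * (1 + A) := by rw [e10]; ring
        _ = _ := by ring
    have e12 : 0 ≤ Real.exp (-(J * τ)) := (Real.exp_pos _).le
    calc ∑ i ∈ range J, cc i * R (l0 * Real.exp ((i + 1 : ℕ) * τ)) +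
          Real.exp (-(J * τ)) * R x
        ≤ l0 * ((1 + τ) / MP w * (J * (Real.exp τ - 1) + A * (1 - Real.exp (-(J * τ))))) +
          l0 * ((1 + τ) / MP w * (1 + A)) := add_le_add (e1.trans e4.le) e6
      _ ≤ l0 * ((1 + τ) / MP w * (J * (Real.exp τ - 1) + A)) +
          l0 * ((1 + τ) / MP w * (1 + A)) := by
          apply add_le_add_left
          apply mul_le_mul_of_nonneg_left _ hlw0.le
          apply mul_le_mul_of_nonneg_left _ (by positivity)
          nlinarith
      _ = _ := by ring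
  -- step 4: the numbers
  have h4 : Real.exp τ - 1 ≤ τ * (1 + τ) := exp_sub_one_le hτ0.le (by linarith)
  have h5 : J * (Real.exp τ - 1) ≤ (1 + τ) * Real.log (x / l0) + 2 := by
    have hJ0 : (0:ℝ) ≤ J := Nat.cast_nonneg _
    calc J * (Real.exp τ - 1) ≤ (Real.log (x / l0) / τ + 1) * (τ * (1 + τ)) := by
          apply mul_le_mul hJ2 h4
          · linarith [Real.one_le_exp hτ0.le]
          · have := div_nonneg hΛ0 hτ0.le
            linarith
      _ = (1 + τ) * Real.log (x / l0) + τ * (1 + τ) := by field_simp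
      _ ≤ _ := by nlinarith
  have h6 : ∑ s ∈ W, (∏ p ∈ s, 1 / (p : ℝ)) / ∑ p ∈ s, Real.log (p : ℕ) ≤
      (1 + τ) / MP w * ((1 + τ) * Real.log (x / l0) + 2 * A + 3) := by
    refine hD.trans ((mul_le_mul_of_nonneg_left h3 (by positivity)).trans ?_)
    have : 1 / l0 * (l0 * ((1 + τ) / MP w * (J * (Real.exp τ - 1) + 2 * A + 1))) =
        (1 + τ) / MP w * (J * (Real.exp τ - 1) + 2 * A + 1) := by
      field_simp
    rw [this]
    apply mul_le_mul_of_nonneg_left _ (by positivity)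
    linarith
  have h7 : ∑ s ∈ W, 1 / ((∏ p ∈ s, ((p : ℝ) - 1)) * ∑ p ∈ s, Real.log (p : ℕ)) ≤
      1 / (1 - τ) * ∑ s ∈ W, (∏ p ∈ s, 1 / (p : ℝ)) / ∑ p ∈ s, Real.log (p : ℕ) := by
    rw [Finset.mul_sum]
    apply Finset.sum_le_sum
    intro s hs
    have hl : 0 < ∑ p ∈ s, Real.log (p : ℕ) := hlw0.trans_le (hell s hs)
    have h8 := hφ s hs
    have h9 := hppos s hs
    have h10 : 0 < 1 - τ := by linarith
    have h11 : (∏ p ∈ s, 1 / (p : ℝ)) = 1 / ∏ p ∈ s, (p : ℝ) := by
      rw [Finset.prod_div_distrib]; simp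
    rw [h11]
    calc 1 / ((∏ p ∈ s, ((p : ℝ) - 1)) * ∑ p ∈ s, Real.log (p : ℕ))
        ≤ 1 / (((1 - τ) * ∏ p ∈ s, (p : ℝ)) * ∑ p ∈ s, Real.log (p : ℕ)) := by
          apply one_div_le_one_div_of_le
          · positivity
          · exact mul_le_mul_of_nonneg_right h8 hl.le
      _ = _ := by field_simp
  refine h7.trans ?_
  have h10 : 0 < 1 - τ := by linarith
  refine (mul_le_mul_of_nonneg_left h6 (by positivity)).trans ?_
  rw [le_div_iff₀ hM]
  have h12 : 1 / (1 - τ) * ((1 + τ) / MP w * ((1 + τ) * Real.log (x / l0) + 2 * A + 3)) * MP w =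
      (1 + τ) / (1 - τ) * ((1 + τ) * Real.log (x / l0) + (2 * A + 3)) := by
    field_simp
    ring
  rw [h12]
  have h13 : (1 + τ) / (1 - τ) ≤ 1 + 3 * τ := by
    rw [div_le_iff₀ h10]
    nlinarith
  have h14 : (1 + 3 * τ) * (1 + τ) ≤ 1 + ε := by
    rw [hτ]; nlinarith
  calc (1 + τ) / (1 - τ) * ((1 + τ) * Real.log (x / l0) + (2 * A + 3))
      ≤ (1 + 3 * τ) * ((1 + τ) * Real.log (x / l0) + (2 * A + 3)) := by
        apply mul_le_mul_of_nonneg_right h13
        positivity
    _ = (1 + 3 * τ) * (1 + τ) * Real.log (x / l0) + (1 + 3 * τ) * (2 * A + 3) := by ring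
    _ ≤ (1 + ε) * Real.log (x / l0) + 2 * (2 * A + 3) := by
        apply add_le_add
        · exact mul_le_mul_of_nonneg_right h14 hΛ0
        · apply mul_le_mul_of_nonneg_right _ (by linarith)
          linarith

end Pool.Agent.K4H10.BR
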