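import Pool.Agent.K4H10.BR.Abs3
import Pool.Agent.K4H10.BR.BSum

set_option autoImplicit false
set_option linter.unusedSectionVars false

/-! # The barrier for the square sieve -/

namespace Pool.Agent.K4H10.BR

open Finset Pool.Agent.K4H10.EX

open scoped Classical

/-- the indicator function of the residue class `a` modulo `d` -/
noncomputable def ind (d : ℕ) (a : ℤ) : ℤ → ℝ := fun n => if (d : ℤ) ∣ n - a then 1 else 0

/-- the linear combinations of indicator functions of residue classes to moduli `d ∣ P`, `d ≤ Q` -/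
noncomputable def Level (P : ℕ) (Q : ℝ) : Submodule ℝ (ℤ → ℝ) :=
  Submodule.span ℝ {f | ∃ (d : ℕ) (a : ℤ), d ∣ P ∧ (d : ℝ) ≤ Q ∧ f = ind d a}

variable (S : Finset ℕ)

/-- reduction modulo all `p ∈ S` -/
def rd (n : ℤ) : ∀ i : S, ZMod (i : ℕ) := fun i => (n : ZMod (i : ℕ))

theorem dvd_of_rd (hS : ∀ p ∈ S, p.Prime) (D : Finset ℕ) (hD : D ⊆ S) (n n' : ℤ)
    (h : ∀ i : S, (i : ℕ) ∈ D → rd S n i = rd S n' i) : ((∏ p ∈ D, p : ℕ) : ℤ) ∣ n - n' := by
  rw [Int.natCast_dvd]
  apply Finset.prod_primes_dvd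
  · intro p hp
    exact (hS p (hD hp)).prime
  · intro p hp
    have h1 := h ⟨p, hD hp⟩ hp
    unfold rd at h1
    rw [ZMod.intCast_eq_intCast_iff_dvd_sub] at h1
    rw [← Int.natCast_dvd]
    rw [← dvd_neg, neg_sub]
    exact h1

theorem rd_bij (hS : ∀ p ∈ S, p.Prime) :
    Function.Bijective (fun j : Fin (∏ p ∈ S, p) => rd S ((j : ℕ) : ℤ)) := by
  have : ∀ i : S, NeZero (i : ℕ) := fun i => ⟨(hS i i.2).ne_zero⟩
  rw [Fintype.bijective_iff_injective_and_card]
  constructor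
  · intro j j' h
    have h1 := dvd_of_rd S hS S (Finset.Subset.refl _) _ _ fun i _ => congrFun h i
    have h3 := j.2
    have h4 := j'.2
    have h2 := Int.eq_zero_of_abs_lt_dvd h1 (by rw [abs_lt]; omega)
    exact Fin.ext (by omega)
  · rw [Fintype.card_fin, Fintype.card_pi]
    simp_rw [ZMod.card]
    exact (Finset.prod_coe_sort S (fun p => p)).symm

/-- the inverse of the reduction -/
noncomputable def crt (hS : ∀ p ∈ S, p.Prime) :
    Fin (∏ p ∈ S, p) ≃ (∀ i : S, ZMod (i : ℕ)) := Equiv.ofBijective _ (rd_bij S hS)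

theorem rd_crt (hS : ∀ p ∈ S, p.Prime) (ω : ∀ i : S, ZMod (i : ℕ)) :
    rd S ((((crt S hS).symm ω : Fin _) : ℕ) : ℤ) = ω :=
  (crt S hS).apply_symm_apply ω

/-- the function on the product space -/
noncomputable def tl (hS : ∀ p ∈ S, p.Prime) (V : ℤ → ℝ) (ω : ∀ i : S, ZMod (i : ℕ)) : ℝ :=
  V ((((crt S hS).symm ω : Fin _) : ℕ) : ℤ)

theorem T_lin1 {ι : Type} [Fintype ι] [DecidableEq ι] {α : ι → Type} [∀ i, Fintype (α i)]
    [∀ i, DecidableEq (α i)] (M : ∀ i, α i → α i → ℝ) (V V' : (∀ i, α i) → ℝ) (ω : ∀ i, α i) :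
    T M (fun η => V η + V' η) ω = T M V ω + T M V' ω := by
  unfold T
  rw [← Finset.sum_add_distrib]
  exact Finset.sum_congr rfl fun η _ => by ring

theorem T_lin2 {ι : Type} [Fintype ι] [DecidableEq ι] {α : ι → Type} [∀ i, Fintype (α i)]
    [∀ i, DecidableEq (α i)] (M : ∀ i, α i → α i → ℝ) (c : ℝ) (V : (∀ i, α i) → ℝ)
    (ω : ∀ i, α i) :
    T M (fun η => c * V η) ω = c * T M V ω := by
  unfold T
  rw [Finset.mul_sum]
  exact Finset.sum_congr rfl fun η _ => by ring

theorem lev_of_level (hS : ∀ p ∈ S, p.Prime) [∀ i : S, NeZero (i : ℕ)] (x : ℝ) (V : ℤ → ℝ)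
    (hV : V ∈ Level (∏ p ∈ S, p) (Real.exp x)) :
    Lev (fun s : Finset S => ∑ i ∈ s, Real.log ((i : ℕ) : ℝ) ≤ x) (tl S hS V) := by
  unfold Level at hV
  induction hV using Submodule.span_induction with
  | mem f hf =>
    obtain ⟨d, a, hd, hdx, rfl⟩ := hf
    intro s hs M hM ω
    have hex : ∃ i ∈ s, ¬ (i : ℕ) ∣ d := by
      by_contra hcon
      push Not at hcon
      apply hs
      have hd0 : d ≠ 0 := by
        rintro rfl
        have : (∏ p ∈ S, p) = 0 := Nat.eq_zero_of_zero_dvd hd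
        rw [Finset.prod_eq_zero_iff] at this
        obtain ⟨p, hp, hp0⟩ := this
        exact (hS p hp).ne_zero hp0
      have h1 : ∏ p ∈ s.map (Function.Embedding.subtype _), p ∣ d := by
        apply Finset.prod_primes_dvd
        · intro p hp
          rw [Finset.mem_map] at hp
          obtain ⟨i, _, rfl⟩ := hp
          exact (hS i i.2).prime
        · intro p hp
          rw [Finset.mem_map] at hp
          obtain ⟨i, hi, rfl⟩ := hp
          exact hcon i hi
      rw [Finset.prod_map] at h1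
      have h2 := Nat.le_of_dvd (Nat.pos_of_ne_zero hd0) h1
      have h3 : ∑ i ∈ s, Real.log ((i : ℕ) : ℝ) = Real.log ((∏ i ∈ s, (i : ℕ) : ℕ) : ℝ) := by
        push_cast
        rw [Real.log_prod]
        intro i _
        have := (hS i i.2).pos
        positivity
      show ∑ i ∈ s, Real.log ((i : ℕ) : ℝ) ≤ x
      rw [h3, ← Real.log_exp x]
      apply Real.log_le_log
      · have : 0 < ∏ i ∈ s, (i : ℕ) := Finset.prod_pos fun i _ => (hS i i.2).pos
        exact_mod_cast this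
      · refine le_trans ?_ hdx
        exact_mod_cast h2
    obtain ⟨i, hi, hid⟩ := hex
    apply T_zero M i (hM i hi)
    intro η η' hη
    unfold tl ind
    set n : ℤ := ((((crt S hS).symm η : Fin _) : ℕ) : ℤ) with hn
    set n' : ℤ := ((((crt S hS).symm η' : Fin _) : ℕ) : ℤ) with hn'
    have h1 : ((∏ p ∈ S.erase i, p : ℕ) : ℤ) ∣ n - n' := by
      apply dvd_of_rd S hS _ (Finset.erase_subset _ _)
      intro j hj
      rw [hn, hn', rd_crt, rd_crt]
      apply hη
      intro hji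
      rw [hji] at hj
      exact (Finset.notMem_erase _ _) hj
    have h2 : d ∣ ∏ p ∈ S.erase i, p := by
      have h3 : Nat.Coprime d i := ((hS i i.2).coprime_iff_not_dvd.2 hid).symm
      apply h3.dvd_of_dvd_mul_right
      rw [Finset.prod_erase_mul _ _ i.2]
      exact hd
    have h4 : (d : ℤ) ∣ n - n' := (Int.natCast_dvd_natCast.2 h2).trans h1
    have h5 : (d : ℤ) ∣ n - a ↔ (d : ℤ) ∣ n' - a := by
      have : n - a = (n - n') + (n' - a) := by ring
      rw [this]
      exact (dvd_add_right h4)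
    by_cases h6 : (d : ℤ) ∣ n - a
    · rw [if_pos h6, if_pos (h5.1 h6)]
    · rw [if_neg h6, if_neg (fun h => h6 (h5.2 h))]
  | zero =>
    intro s _ M _ ω
    unfold T tl
    simp
  | add f g _ _ hf hg =>
    intro s hs M hM ω
    have h1 := T_lin1 M (tl S hS f) (tl S hS g) ω
    have h2 : tl S hS (f + g) = fun η => tl S hS f η + tl S hS g η := by
      funext η; rfl
    rw [h2, h1, hf s hs M hM ω, hg s hs M hM ω, add_zero]
  | smul c f _ hf =>
    intro s hs M hM ω
    have h1 := T_lin2 M c (tl S hS f) ω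
    have h2 : tl S hS (c • f) = fun η => c * tl S hS f η := by
      funext η; rfl
    rw [h2, h1, hf s hs M hM ω, mul_zero]

theorem bar_int (hS : ∀ p ∈ S, p.Prime) (w : ℝ) (hw : 2 ≤ w) (hSw : ∀ p ∈ S, w < (p : ℕ)) (x : ℝ)
    (B : ℝ) (hB : ∑ s ∈ S.powerset.filter (fun s : Finset ℕ =>
      ∑ p ∈ s, Real.log (p : ℕ) ≤ x ∧ s.Nonempty),
      1 / ((∏ p ∈ s, ((p : ℝ) - 1)) * ∑ p ∈ s, Real.log (p : ℕ)) ≤ B) (N : ℕ) (h : Fin N → ℤ)
    (hh : ∀ p ∈ S, ∀ i j, ((p : ℕ) : ℤ) ∣ h i - h j → i = j) (θ : ℝ) (hθ : 0 < θ) (hθ1 : θ < 1)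
    (V : ℤ → ℝ) (hV : V ∈ Level (∏ p ∈ S, p) (Real.exp x)) :
    (∏ p ∈ S, (1 - 1 / (p : ℝ))) * (((1 - θ) * (N - w / (w - 1) * x / Real.log w) -
      (1 / θ - 1) * B * (w / (w - 1) * x)) * ∑ n ∈ range (∏ p ∈ S, p), V n ^ 2) ≤
    ∑ n ∈ range (∏ p ∈ S, p), V n ^ 2 *
      (((univ : Finset (Fin N)).filter (fun k => ∀ p ∈ S, ¬ ((p : ℕ) : ℤ) ∣ n + h k)).card : ℝ) := by
  have : ∀ i : S, NeZero (i : ℕ) := fun i => ⟨(hS i i.2).ne_zero⟩
  set q : S → ℝ := fun i => ((i : ℕ) : ℝ) with hq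
  set xx : Fin N → ∀ i : S, ZMod (i : ℕ) := fun k i => ((-(h k) : ℤ) : ZMod (i : ℕ)) with hxx
  have hw0 : 0 < w - 1 := by linarith
  have hmain := abs_barrier (α := fun i : S => ZMod (i : ℕ)) q
    (fun i => by rw [ZMod.card]) (fun i => by
      have := (hS i i.2).one_lt
      simp only [hq]
      exact_mod_cast this) (w / (w - 1)) (by positivity) (fun i => by
      have h1 := hSw i i.2
      simp only [hq]
      rw [div_le_div_iff₀ (by linarith) hw0]
      linarith) xx (fun i => by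
      intro k k' hk
      simp only [hxx] at hk
      rw [ZMod.intCast_eq_intCast_iff_dvd_sub] at hk
      apply hh i i.2 k k'
      have : h k - h k' = -h k' - -h k := by ring
      rw [this]
      exact hk) (fun i : S => Real.log ((i : ℕ) : ℝ)) (Real.log w) (Real.log_pos (by linarith))
      (fun i => Real.log_le_log (by linarith) (hSw i i.2).le)
      (fun s : Finset S => ∑ i ∈ s, Real.log ((i : ℕ) : ℝ) ≤ x) x (fun s hs => hs) B
      (by
        refine le_trans (le_of_eq ?_) ((Finset.sum_le_sum_of_subset_of_nonneg (s :=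
          ((univ : Finset S).powerset.filter (fun s : Finset S =>
            ∑ i ∈ s, Real.log ((i : ℕ) : ℝ) ≤ x ∧ s.Nonempty)).image
              (fun s => s.map (Function.Embedding.subtype _))) ?_ ?_).trans hB)
        · rw [Finset.sum_image]
          · refine Finset.sum_congr rfl fun s _ => ?_
            rw [Finset.prod_map, Finset.sum_map]
            rfl
          · intro s _ s' _ hss
            exact Finset.map_injective _ hss
        · intro t ht
          rw [mem_image] at ht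
          obtain ⟨s, hs, rfl⟩ := ht
          rw [mem_filter] at hs
          rw [mem_filter, mem_powerset]
          refine ⟨?_, ?_, ?_⟩
          · intro p hp
            rw [Finset.mem_map] at hp
            obtain ⟨i, _, rfl⟩ := hp
            exact i.2
          · rw [Finset.sum_map]
            exact hs.2.1
          · exact hs.2.2.map
        · intro t ht _
          rw [mem_filter, mem_powerset] at ht
          have h1 : 0 ≤ ∏ p ∈ t, ((p : ℝ) - 1) := Finset.prod_nonneg fun p hp => by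
            have := (hS p (ht.1 hp)).one_lt
            have : (1:ℝ) < p := by exact_mod_cast this
            linarith
          have h2 : 0 ≤ ∑ p ∈ t, Real.log (p : ℕ) := Finset.sum_nonneg fun p _ =>
            Real.log_natCast_nonneg p
          positivity) θ hθ hθ1 (tl S hS V) (lev_of_level S hS x V hV)
  have e1 : ∏ i : S, (1 - 1 / q i) = ∏ p ∈ S, (1 - 1 / (p : ℝ)) :=
    Finset.prod_coe_sort S (fun p => 1 - 1 / (p : ℝ))
  have e0 : ∀ g : ℤ → ℝ, ∑ ω : (∀ i : S, ZMod (i : ℕ)), tl S hS g ω =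
      ∑ n ∈ range (∏ p ∈ S, p), g n := by
    intro g
    unfold tl
    rw [Finset.sum_range (fun n => g ((n : ℕ) : ℤ))]
    exact Equiv.sum_comp (crt S hS).symm (fun j : Fin (∏ p ∈ S, p) => g (((j : ℕ)) : ℤ))
  have e2 : ∑ ω : (∀ i : S, ZMod (i : ℕ)), tl S hS V ω ^ 2 =
      ∑ n ∈ range (∏ p ∈ S, p), V n ^ 2 := e0 (fun n => V n ^ 2)
  rw [e1, e2, Fintype.card_fin] at hmain
  refine hmain.trans (le_of_eq ?_)
  have e3 : ∀ k : Fin N, ∑ ω : (∀ i : S, ZMod (i : ℕ)) with (∀ i, ω i ≠ xx k i),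
      tl S hS V ω ^ 2 = ∑ n ∈ range (∏ p ∈ S, p),
        V n ^ 2 * (if ∀ p ∈ S, ¬ ((p : ℕ) : ℤ) ∣ n + h k then 1 else 0) := by
    intro k
    rw [← e0 (fun n => V n ^ 2 * (if ∀ p ∈ S, ¬ ((p : ℕ) : ℤ) ∣ n + h k then 1 else 0)),
      Finset.sum_filter]
    refine Finset.sum_congr rfl fun ω _ => ?_
    unfold tl
    have h1 : (∀ i, ω i ≠ xx k i) ↔
        ∀ p ∈ S, ¬ ((p : ℕ) : ℤ) ∣ (((((crt S hS).symm ω : Fin _) : ℕ) : ℤ)) + h k := by
      have h2 : ∀ i : S, ω i = xx k i ↔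
          ((i : ℕ) : ℤ) ∣ (((((crt S hS).symm ω : Fin _) : ℕ) : ℤ)) + h k := by
        intro i
        have h3 := congrFun (rd_crt S hS ω) i
        rw [← h3]
        unfold rd
        simp only [hxx]
        rw [eq_comm, ZMod.intCast_eq_intCast_iff_dvd_sub, sub_neg_eq_add]
      constructor
      · intro h4 p hp h5
        exact h4 ⟨p, hp⟩ ((h2 ⟨p, hp⟩).2 h5)
      · intro h4 i h5
        exact h4 i i.2 ((h2 i).1 h5)
    show _ = V (((((crt S hS).symm ω : Fin _) : ℕ) : ℤ)) ^ 2 *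
      (if ∀ p ∈ S, ¬ ((p : ℕ) : ℤ) ∣ (((((crt S hS).symm ω : Fin _) : ℕ) : ℤ)) + h k then 1 else 0)
    by_cases h6 : ∀ i, ω i ≠ xx k i
    · rw [if_pos h6, if_pos (h1.1 h6), mul_one]
    · rw [if_neg h6, if_neg (fun h => h6 (h1.2 h)), mul_zero]
  simp_rw [e3]
  rw [Finset.sum_comm]
  refine Finset.sum_congr rfl fun n _ => ?_
  rw [← Finset.mul_sum]
  congr 1
  rw [Finset.sum_boole]

end Pool.Agent.K4H10.BR
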