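import Pool.Agent.K4H10.EX.Cov1
import Pool.Agent.K4H10.EX.Num
import Pool.Agent.K4H10.BR.ModCore
import Pool.Agent.K4H10.BR.Bar

set_option autoImplicit false
set_option linter.unusedSectionVars false

/-! # Weights below the threshold (helper10) -/

namespace Pool.Agent.K4H10.BR

open Finset Filter Pool.Agent.H256R2.SC Pool.Agent.K4H10.EX

open scoped Classical

theorem card_cls (P q : ℕ) (hq : 0 < q) (hqP : q ∣ P) (b : ℤ) :
    (((range P).filter (fun a : ℕ => (q : ℤ) ∣ (a : ℤ) - b)).card : ℝ) = P * (1 / (q : ℝ)) := by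
  set v : ℕ := (b % q).toNat with hv
  have hv0 : ((v : ℕ) : ℤ) = b % q := Int.toNat_of_nonneg (Int.emod_nonneg _ (by omega))
  have h1 : (range P).filter (fun a : ℕ => (q : ℤ) ∣ (a : ℤ) - b) =
      (range P).filter (fun a : ℕ => a ≡ v [MOD q]) := by
    apply Finset.filter_congr
    intro a _
    rw [← Int.natCast_modEq_iff, hv0, Int.modEq_comm, Int.modEq_iff_dvd]
    have h2 : (q : ℤ) ∣ b - b % q := Int.dvd_self_sub_emod
    constructor
    · intro h
      have := dvd_add h h2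
      have e : (a : ℤ) - b + (b - b % q) = a - b % q := by ring
      rwa [e] at this
    · intro h
      have := dvd_sub h h2
      have e : (a : ℤ) - b % q - (b - b % q) = a - b := by ring
      rwa [e] at this
  rw [h1, ← Nat.count_eq_card_filter_range, Nat.count_modEq_card P hq v]
  have h3 : P % q = 0 := Nat.mod_eq_zero_of_dvd hqP
  rw [h3]
  simp only [not_lt_zero, if_false, add_zero]
  rw [Nat.cast_div hqP (by positivity)]
  ring

theorem cov_model (ε : ℝ) (hε : 0 < ε) (hε1 : ε ≤ 1 / 10) : ∃ Λ₀ L₀ : ℝ, 1 ≤ Λ₀ ∧ ∀ L : ℝ, L₀ ≤ L →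
    ∀ Λ : ℝ, Λ₀ ≤ Λ → Λ ≤ Real.log L → ∀ (N : ℕ) (hs : Fin N → ℤ),
    (N : ℝ) * MP (L ^ 2) ≤ (1 / 2 - ε) * L * Λ →
    (∀ p : ℕ, p.Prime → L ^ 2 < p → ∀ k l, (p : ℤ) ∣ hs k - hs l → k = l) →
    ∃ S : Finset ℕ, (∀ p ∈ S, p.Prime ∧ L ^ 2 < (p : ℕ) ∧
      Real.log (p : ℕ) ≤ Real.log L * Real.exp Λ) ∧
    ∃ V : ℤ → ℝ, V ∈ Level (∏ p ∈ S, p) (Real.exp (L / 2)) ∧
      0 < ∑ n ∈ range (∏ p ∈ S, p), V n ^ 2 ∧
      ∑ n ∈ range (∏ p ∈ S, p), V n ^ 2 *
        (((univ : Finset (Fin N)).filter (fun k => ∀ p ∈ S, ¬ ((p : ℕ) : ℤ) ∣ n + hs k)).card : ℝ) ≤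
      1 / 3 * ∑ n ∈ range (∏ p ∈ S, p), V n ^ 2 := by
  obtain ⟨C₃, hC₃, hMPu⟩ := MP_upper
  obtain ⟨CM₀, hM₀⟩ := Pool.Agent.Helper256.KM.mertens_inv
  set CM : ℝ := max CM₀ 0 with hCM
  have hCM0 : 0 ≤ CM := le_max_right _ _
  set C₄ : ℝ := 2 * C₃ with hC₄
  have hC₄0 : 0 < C₄ := by rw [hC₄]; linarith
  set η : ℝ := ε / 16 with hη
  have hη0 : 0 < η := by positivity
  have hη1 : η ≤ 1 / 160 := by rw [hη]; linarith
  set c : ℝ := η ^ 2 / 200 with hc
  have hc0 : 0 < c := by positivity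
  obtain ⟨hc1, hc27⟩ := Num.a_c ε hε hε1
  rw [← hη, ← hc] at hc1 hc27
  obtain ⟨L₀, hL₀⟩ := ev_cov (ε / 16) c CM (by positivity) hc0
  refine ⟨16 * C₄ / ε, L₀, ?_, ?_⟩
  · rw [le_div_iff₀ hε, hC₄]
    linarith
  intro L hLL Λ hΛ hΛ1 N hs h_card hdist
  set res : ℕ → (Fin N) → ℤ := fun _ k => - hs k with hresdef
  have hres : ∀ p : ℕ, p.Prime → L ^ 2 < p → ∀ k l, k ≠ l → ¬ ((p : ℤ) ∣ res p k - res p l) := by
    intro p hp hpL k l hkl hdiv
    apply hkl
    have e1 : res p k - res p l = hs l - hs k := by simp only [hresdef]; ring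
    rw [e1] at hdiv
    exact (hdist p hp hpL l k hdiv).symm
  obtain ⟨f1, f2, f3, f4, f5, f6, f7⟩ := hL₀ L hLL
  set l := Real.log L with hl
  have hl0 : 0 < l := by linarith
  have hL0 : 0 < L := by linarith
  have hLexp : L = Real.exp l := (Real.exp_log hL0).symm
  have hΛ0 : 0 < Λ := lt_of_lt_of_le (div_pos (by linarith) hε) hΛ
  have hLL2 : 1000 * L ≤ L ^ 2 := by rw [sq]; exact mul_le_mul_of_nonneg_right f4 hL0.le
  set w : ℝ := L ^ 2 with hw
  have hw9 : 1000000 ≤ w := by linarith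
  have hw3 : 3 ≤ w := by linarith
  have hw0 : 0 < w := by linarith
  have hlogw : Real.log w = 2 * l := by rw [hw, Real.log_pow]; push_cast; ring
  have hM := MP_pos w
  have hMP4 : MP w ≤ C₄ * l := by
    refine (hMPu w hw3).trans (le_of_eq ?_)
    rw [hlogw, hC₄]; ring
  have hMPl : 2 * l ≤ MP w := by rw [← hlogw]; exact MP_lower w (by linarith)
  have hB := Bsum_primes ε C₄ L Λ c hε hε1 (by linarith) hMP4 hΛ hΛ1 hc0 f1 f3 f4 f6 f7
  rw [← hl, ← hw] at hB
  have hySl := Num.a_ySl l L Λ c f1 hΛ0 f6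
  set yS : ℝ := min (l * Real.exp Λ) (c * L / l) with hyS
  set z : ℝ := Real.exp yS with hz
  have hyS0 : 0 < yS := by linarith
  have hySc : yS ≤ c * L / l := min_le_right _ _
  have hySL : yS ≤ L := Num.a_ySL yS l L c f1 hL0 hc0 hc1 hySc
  have hz1 : 1 < z := by rw [hz]; exact Real.one_lt_exp_iff.mpr hyS0
  have hzpos : 0 < z := by linarith
  have hlogz : Real.log z = yS := Real.log_exp _
  -- the sieving primes
  set PP : Finset ℕ := PS w z ∅ with hPP
  have hPPmem : ∀ p ∈ PP, p.Prime ∧ w < (p:ℝ) ∧ (p:ℝ) ≤ z := by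
    intro p hp
    rw [hPP] at hp
    unfold PS at hp
    rw [Finset.mem_filter, Finset.mem_Icc] at hp
    refine ⟨hp.2.1, hp.2.2.1, ?_⟩
    calc (p:ℝ) ≤ (⌊z⌋₊ : ℝ) := by exact_mod_cast hp.1.2
      _ ≤ z := Nat.floor_le hzpos.le
  have hPprime : ∀ p ∈ PP, p.Prime := fun p hp => (hPPmem p hp).1
  have hinj : ∀ p ∈ PP, ∀ k l : (Fin N), k ≠ l → ¬ ((p : ℤ) ∣ res p k - res p l) := by
    intro p hp
    obtain ⟨h1, h2, h4⟩ := hPPmem p hp
    exact hres p h1 h2
  set n : ℕ := PP.card with hn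
  set P : Fin n → ℝ := fun i => ((emb PP i : ℕ) : ℝ) with hP
  set g : Fin n → ℝ := fun i => 1 / ((emb PP i : ℕ) : ℝ) with hg
  have hPy : ∀ i, w < P i := fun i => (hPPmem _ (emb_mem PP i)).2.1
  have hPz : ∀ i, P i ≤ z := fun i => (hPPmem _ (emb_mem PP i)).2.2
  have hP1 : ∀ i, 1 < P i := fun i => by have := hPy i; linarith
  have hP0 : ∀ i, 0 < P i := fun i => by have := hPy i; linarith
  have hgP : ∀ i, g i = 1 / P i := fun i => rfl
  have hg0 : ∀ i, 0 < g i := fun i => by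
    rw [hgP]
    exact div_pos one_pos (hP0 i)
  have hgy : ∀ i, g i ≤ 1 / w := fun i => by
    rw [hgP]
    exact one_div_le_one_div_of_le hw0 (hPy i).le
  -- the profile
  have hlow : 0 < (1 - ε / 4) * Λ / MP w :=
    div_pos (mul_pos (by linarith) hΛ0) hM
  have hBpos : 0 < Bsum P g z := lt_of_lt_of_le hlow hB
  set K : ℝ := 1 / Bsum P g z with hK
  have hK0 : 0 < K := div_pos one_pos hBpos
  have hKle : K ≤ 1 / ((1 - ε / 4) * Λ / MP w) := one_div_le_one_div_of_le hlow hB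
  have hKl : K ≤ l := hKle.trans (Num.a_K C₄ Λ ε l (MP w) hC₄0 hε hε1 hΛ hl0 hMP4 hM)
  have Hy : Hyp P g (prof P z K) z K := hyp_prof P g hP1 hg0 z hz1 hBpos (by
    intro i
    rw [← hK]
    refine hKl.trans ?_
    have h1 : Real.log w ≤ Real.log (P i) := Real.log_le_log hw0 (hPy i).le
    linarith)
  set u : ℝ := (Fintype.card (Fin N) : ℝ) with hu
  have hu0 : 0 ≤ u := Nat.cast_nonneg _
  have huN : u = N := by rw [hu]; simp
  rw [← huN] at h_card
  have huK : u * K ≤ (1 - ε / 4) * ((1 / 2 - ε / 4) * L) :=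
    (mul_le_mul_of_nonneg_left hKle hu0).trans (Num.a_u u (MP w) L Λ ε hM h_card hε hε1 hΛ0 hL0)
  have huL : u ≤ L / 4 := Num.a_uL u L l Λ ε (MP w) hl0 hL0 hu0 hMPl h_card hε hΛ0 hΛ1
  -- the sum of the reciprocals
  have hG : ∑ i, g i ≤ l + CM := by
    have h1 : ∑ i, g i = ∑ p ∈ PP, 1 / (p:ℝ) := by
      have : PP = univ.map (emb PP) := by
        ext p
        rw [Finset.mem_map]
        constructor
        · intro hp
          obtain ⟨i, hi⟩ := emb_surj PP hp
          exact ⟨i, Finset.mem_univ _, hi⟩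
        · rintro ⟨i, _, rfl⟩
          exact emb_mem PP i
      conv_rhs => rw [this]
      rw [Finset.sum_map]
    have hz3 : 3 ≤ ⌊z⌋₊ := by
      apply Nat.le_floor
      push_cast
      have := Real.add_one_le_exp yS
      rw [hz]
      linarith
    have h2 := (abs_le.mp (hM₀ ⌊z⌋₊ hz3)).2
    have h3 : ∑ p ∈ PP, 1 / (p:ℝ) ≤ ∑ p ∈ (Finset.Icc 1 ⌊z⌋₊).filter Nat.Prime, (1 : ℝ) / p := by
      apply Finset.sum_le_sum_of_subset_of_nonneg
      · intro p hp
        rw [hPP] at hp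
        unfold PS at hp
        rw [Finset.mem_filter] at hp ⊢
        exact ⟨hp.1, hp.2.1⟩
      · intro p _ _
        positivity
    have h4 : Real.log (Real.log (⌊z⌋₊ : ℝ)) ≤ l := by
      have e1 : (3:ℝ) ≤ (⌊z⌋₊ : ℝ) := by exact_mod_cast hz3
      have e2 : Real.log (⌊z⌋₊ : ℝ) ≤ L := by
        have : Real.log (⌊z⌋₊ : ℝ) ≤ Real.log z :=
          Real.log_le_log (by linarith) (Nat.floor_le hzpos.le)
        linarith
      rw [hl]
      exact Real.log_le_log (Real.log_pos (by linarith)) e2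
    rw [h1]
    have := le_max_left CM₀ 0
    linarith
  have hGn : 0 ≤ ∑ i, g i := Finset.sum_nonneg (fun i _ => (hg0 i).le)
  -- parameters
  set lQ : ℝ := (1 / 2 - ε / 4) * L with hlQ
  have hlQ0 : 0 < lQ := by rw [hlQ]; apply mul_pos _ hL0; linarith
  set Q : ℝ := Real.exp lQ with hQ
  set J : ℕ := 2 * ⌈12 * l⌉₊ with hJ
  have hJ1 : 24 * l ≤ (J:ℝ) := by
    have := Nat.le_ceil (12 * l)
    rw [hJ]; push_cast; linarith
  have hJ2 : (J:ℝ) ≤ 27 * l := by
    have := Nat.ceil_lt_add_one (show 0 ≤ 12 * l by linarith)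
    rw [hJ]; push_cast; linarith
  have hJe : Even J := ⟨⌈12 * l⌉₊, by rw [hJ]; ring⟩
  have hQ1 : 1 ≤ Q := Real.one_le_exp hlQ0.le
  have hQ0 : 0 < Q := by linarith
  have hzJ : z ^ J ≤ Real.exp (ε / 4 * L) := by
    rw [hz, ← Real.exp_nat_mul]
    apply Real.exp_le_exp.mpr
    calc (J:ℝ) * yS ≤ (27 * l) * (c * L / l) :=
          mul_le_mul hJ2 hySc hyS0.le (by linarith)
      _ = 27 * c * L := by field_simp
      _ ≤ _ := mul_le_mul_of_nonneg_right hc27 hL0.le
  -- sizes of supports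
  have hsupp : ∀ D : Col n (Fin N), qq P D ≤ Q → ((supp D).card : ℝ) * (2 * l) ≤ lQ := by
    intro D hD
    have h1 : Real.exp (((supp D).card : ℝ) * (2 * l)) ≤ qq P D := by
      unfold qq
      rw [prod_nu1]
      have : Real.exp (((supp D).card : ℝ) * (2 * l)) = ∏ i ∈ supp D, Real.exp (2 * l) := by
        rw [Finset.prod_const, ← Real.exp_nat_mul]
      rw [this]
      apply Finset.prod_le_prod
      · intro i _; exact (Real.exp_pos _).le
      · intro i _
        have h2 : Real.exp (2 * l) = w := by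
          rw [← hlogw, Real.exp_log hw0]
        rw [h2]
        exact (hPy i).le
    have h2 := h1.trans hD
    rw [hQ] at h2
    exact Real.exp_le_exp.mp h2
  have hδ : ∀ D : Col n (Fin N), qq P D ≤ Q → 2 * ∑ i with D i ≠ none, g i ≤ 1 / L := by
    intro D hD
    have h1 : ∑ i with D i ≠ none, g i ≤ (supp D).card * (1 / w) := by
      have : ∑ i ∈ supp D, g i ≤ ∑ i ∈ supp D, (1 / w) := Finset.sum_le_sum (fun i _ => hgy i)
      rw [Finset.sum_const, nsmul_eq_mul] at this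
      exact this
    have h2 := hsupp D hD
    have h3 : ((supp D).card : ℝ) ≤ L / 2 :=
      Num.a_supp _ l L lQ ε (Nat.cast_nonneg _) f1 hL0 hε hlQ h2
    have h4 : ((supp D).card : ℝ) * (1 / w) ≤ L / 2 * (1 / w) :=
      mul_le_mul_of_nonneg_right h3 (div_nonneg zero_le_one hw0.le)
    have h5 : L / 2 * (1 / w) = 1 / (2 * L) := by rw [hw]; field_simp
    have h6 : 2 * (1 / (2 * L)) = 1 / L := by field_simp
    rw [← h6]
    linarith
  have hqle : ∀ D : Col n (Fin N), qq P D ≤ Q ^ 2 * z ^ J → qq P D ≤ Real.exp ((1 - ε / 4) * L) := by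
    intro D hD
    refine hD.trans ?_
    calc Q ^ 2 * z ^ J ≤ (Real.exp lQ) ^ 2 * Real.exp (ε / 4 * L) :=
          mul_le_mul_of_nonneg_left hzJ (sq_nonneg _)
      _ = Real.exp ((1 - ε / 4) * L) := by
          rw [← Real.exp_nat_mul, ← Real.exp_add]
          congr 1
          rw [hlQ]
          push_cast
          ring
  set PPr : ℕ := ∏ p ∈ PP, p with hPPr
  have hqd : ∀ D : Col n (Fin N), qn PP D ∣ PPr := by
    intro D
    have h1 : PP = univ.map (emb PP) := by
      ext p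
      rw [Finset.mem_map]
      constructor
      · intro hp
        obtain ⟨i, hi⟩ := emb_surj PP hp
        exact ⟨i, Finset.mem_univ _, hi⟩
      · rintro ⟨i, _, rfl⟩
        exact emb_mem PP i
    have h2 : PPr = ∏ i, emb PP i := by
      rw [hPPr]
      conv_lhs => rw [h1]
      rw [Finset.prod_map]
    rw [h2]
    exact Finset.prod_dvd_prod_of_subset _ _ _ (Finset.subset_univ _)
  have hPPr0 : 0 < PPr := Finset.prod_pos fun p hp => (hPprime p hp).pos
  -- the count
  have hevent : ∀ D : Col n (Fin N),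
      (((range PPr).filter (fun a : ℕ => ∀ i, D i ≠ none →
        colr PP res (a : ℤ) i = D i)).card : ℝ) = (PPr : ℝ) * nu g D := by
    intro D
    obtain ⟨b, hb⟩ := event_iff hPprime hinj D
    have h1 : ((range PPr).filter (fun a : ℕ => ∀ i, D i ≠ none →
        colr PP res (a : ℤ) i = D i)) =
        (range PPr).filter (fun a : ℕ => ((qn PP D : ℕ) : ℤ) ∣ (a : ℤ) - b) := by
      apply Finset.filter_congr
      intro a _
      exact hb _
    rw [h1]
    have h2 : nu g D = 1 / ((qn PP D : ℕ) : ℝ) := nu_eq PP D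
    rw [h2]
    exact card_cls PPr (qn PP D) (Nat.pos_of_ne_zero (qn_squarefree hPprime D).ne_zero) (hqd D) b
  have hi1 : 1 / w ≤ 1 / 9 := one_div_le_one_div_of_le (by norm_num) (by linarith)
  have hi2 : (1:ℝ) / 9 ≤ 1 := by norm_num
  have hi3 : (L / 4) * (1 / w) = 1 / (4 * L) := by rw [hw]; field_simp
  have hi4 : 1 / (4 * L) ≤ 1 := by rw [div_le_one (by linarith)]; linarith
  have hi5 : u * (1 / L) ≤ 1 / 4 := by
    have h1 : u * (1 / L) ≤ (L / 4) * (1 / L) :=
      mul_le_mul_of_nonneg_right huL (div_nonneg zero_le_one hL0.le)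
    have e : (L / 4) * (1 / L) = 1 / 4 := by field_simp
    linarith
  have hi6 : 2 * u * ∑ i, 1 / (P i) ^ 2 ≤ 1 := by
    have h1 : ∑ i, 1 / (P i) ^ 2 ≤ (1 / w) * ∑ i, g i := by
      rw [Finset.mul_sum]
      apply Finset.sum_le_sum
      intro i _
      have : 1 / (P i) ^ 2 = g i * g i := by rw [hgP]; field_simp
      rw [this]
      exact mul_le_mul_of_nonneg_right (hgy i) (hg0 i).le
    have h2 : (1 / w) * ∑ i, g i ≤ (1 / w) * (2 * L) := by
      apply mul_le_mul_of_nonneg_left _ (div_nonneg zero_le_one hw0.le)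
      linarith
    have h3 : (1 / w) * (2 * L) = 2 / L := by rw [hw]; field_simp
    have h4 : 2 * u * ∑ i, 1 / (P i) ^ 2 ≤ 2 * (L / 4) * (2 / L) := by
      apply mul_le_mul _ (by linarith) (Finset.sum_nonneg (fun i _ => by positivity))
        (by linarith)
      linarith
    have e : 2 * (L / 4) * (2 / L) = 1 := by field_simp; norm_num
    linarith
  have hi7 : (u + 1 : ℝ) * ((1 / L) ^ 2 + Real.exp (η * ((1 + η) * u * K
      - Real.log (Q / z)) / Real.log z)) ≤ 1 / 8 := by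
    apply Num.a_tail2 u L l f4 hLexp hu0 huL f1
    rw [Real.log_div hQ0.ne' hzpos.ne', hQ, Real.log_exp, hlogz]
    exact Num.a_tail η c ε L l lQ yS u K hη0 hη hη1 hc hL0 f1 hε1 hlQ hyS0 hySc huK
  have hi8 : u * (1 / 3) ^ J * Real.exp ((2 + 6 * 3) * ∑ i, g i) ≤ 1 / 8 :=
    Num.a_mom u L l _ J f4 hLexp hu0 huL f1 hJ1 (by linarith)
  -- apply the core theorem
  obtain ⟨V, hVL, hV0, hV1⟩ := core_model (κ := Fin N) (range PPr)
    (fun a : ℕ => colr PP res (a : ℤ)) Hy Q (1 / L) 3 (PPr : ℝ) J hJe (by norm_num)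
    (by exact_mod_cast hPPr0) hQ1 hPz
    (fun i => (hgy i).trans (hi1.trans hi2))
    (fun i => by
      have := hgy i
      linarith)
    (fun i => by
      have h1 : u * g i ≤ (L / 4) * (1 / w) := mul_le_mul huL (hgy i) (hg0 i).le (by linarith)
      linarith)
    hδ hi5 hi6 η hη0.le (by linarith) hi7 hi8 hevent
  refine ⟨PP, fun p hp => ?_, fun a => V (colr PP res a), ?_, ?_, ?_⟩
  · obtain ⟨h1, h2, h3⟩ := hPPmem p hp
    refine ⟨h1, h2, ?_⟩
    have h4 : Real.log ((p : ℕ) : ℝ) ≤ Real.log z := Real.log_le_log (by linarith) h3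
    rw [hlogz] at h4
    exact h4.trans (min_le_left _ _)
  · obtain ⟨f, hf1, _, hf3⟩ := hVL
    choose b hb using fun D : Col n (Fin N) => event_iff hPprime hinj D
    have h1 : (fun a : ℤ => V (colr PP res a)) = ∑ D : Col n (Fin N), f D • BR.ind (qn PP D) (b D) := by
      funext a
      rw [Finset.sum_apply, hf1]
      refine Finset.sum_congr rfl fun D _ => ?_
      rw [Pi.smul_apply, smul_eq_mul]
      congr 1
      unfold Pool.Agent.H256R2.SC.ind BR.ind
      by_cases h2 : ∀ i, D i ≠ none → colr PP res a i = D i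
      · rw [if_pos h2, if_pos ((hb D a).1 h2)]
      · rw [if_neg h2, if_neg (fun h => h2 ((hb D a).2 h))]
    rw [h1]
    apply Submodule.sum_mem
    intro D _
    by_cases hfD : f D = 0
    · rw [hfD, zero_smul]
      exact Submodule.zero_mem _
    · apply Submodule.smul_mem
      apply Submodule.subset_span
      refine ⟨qn PP D, b D, hqd D, ?_, rfl⟩
      rw [qn_cast]
      refine (hf3 D hfD).trans ?_
      rw [hQ]
      apply Real.exp_le_exp.2
      rw [hlQ]
      have := mul_pos hε hL0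
      linarith
  · exact hV0
  · refine le_trans (le_of_eq ?_) hV1
    refine Finset.sum_congr rfl fun a _ => ?_
    congr 2
    congr 1
    apply Finset.filter_congr
    intro k _
    constructor
    · intro h i hi
      apply h (emb PP i) (emb_mem PP i)
      have h1 := (colr_eq hinj _ i k).mp hi
      simp only [hresdef, sub_neg_eq_add] at h1
      exact h1
    · intro h p hp hdiv
      obtain ⟨i, hi⟩ := emb_surj PP hp
      apply h i
      rw [colr_eq hinj]
      simp only [hresdef, sub_neg_eq_add]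
      rw [hi]
      exact hdiv

end Pool.Agent.K4H10.BR
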