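import Pool.Agent.K4H10.BR.Bar
import Pool.Agent.K4H10.EX.Cov2

set_option autoImplicit false
set_option linter.unusedSectionVars false

/-! # Final form of the barrier and of the covering theorem -/

namespace Pool.Agent.K4H10.BR

open Finset Filter Pool.Agent.K4H10.EX

open scoped Classical

theorem num1 (ε u θ : ℝ) (hε : 0 < ε) (hε1 : ε ≤ 1) (hu : u ≤ 1 + ε / 16)
    (hθ : θ = 1 - ε / 16) : u / θ * ((1 + ε / 2) / (1 + ε)) ≤ 1 - ε / 12 := by
  have hθ0 : 0 < θ := by rw [hθ]; linarith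
  have h1 : 0 < 1 + ε := by linarith
  rw [div_mul_div_comm, div_le_iff₀ (by positivity), hθ]
  have h2 : u * (1 + ε / 2) ≤ (1 + ε / 16) * (1 + ε / 2) :=
    mul_le_mul_of_nonneg_right hu (by linarith)
  refine h2.trans ?_
  have h3 : (1 - ε / 12) * ((1 - ε / 16) * (1 + ε)) - (1 + ε / 16) * (1 + ε / 2) =
      ε * (7 / 24 - 11 / 64 * ε + ε ^ 2 / 192) := by ring
  have h4 : 0 ≤ ε * (7 / 24 - 11 / 64 * ε + ε ^ 2 / 192) := by
    apply mul_nonneg hε.le
    nlinarith [sq_nonneg ε]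
  linarith

theorem num2 (ε N M x l Λ C₁ C₃ u θ B : ℝ) (hε : 0 < ε) (hε1 : ε ≤ 1) (hM : 0 < M) (hl : 0 < l)
    (hx : 0 < x) (hΛ : 0 < Λ) (hC₃ : 0 < C₃) (hB : B = ((1 + ε / 4) * Λ + C₁) / M)
    (hML : M ≤ C₃ * l) (hu0 : 1 ≤ u) (hu : u ≤ 1 + ε / 16) (hθ : θ = 1 - ε / 16)
    (h1 : C₁ ≤ ε / 4 * Λ) (h3 : 48 * C₃ / ε ≤ Λ) (hN : (1 + ε) * x * Λ ≤ N * M) :
    ε ^ 2 / 384 * N ≤ (1 - θ) * (N - u * x / l) - (1 / θ - 1) * B * (u * x) := by
  have hθ0 : 0 < θ := by rw [hθ]; linarith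
  have hN0 : 0 < N := by
    by_contra hcon
    push Not at hcon
    have : N * M ≤ 0 := mul_nonpos_of_nonpos_of_nonneg hcon hM.le
    have : 0 < (1 + ε) * x * Λ := by positivity
    linarith
  have hxM : x / M ≤ N / ((1 + ε) * Λ) := by
    rw [div_le_div_iff₀ hM (by positivity)]
    linarith
  -- the main term
  have e1 : B * x ≤ (1 + ε / 2) / (1 + ε) * N := by
    calc B * x = ((1 + ε / 4) * Λ + C₁) * (x / M) := by rw [hB]; ring
      _ ≤ ((1 + ε / 2) * Λ) * (x / M) := by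
          apply mul_le_mul_of_nonneg_right _ (by positivity)
          linarith
      _ ≤ ((1 + ε / 2) * Λ) * (N / ((1 + ε) * Λ)) :=
          mul_le_mul_of_nonneg_left hxM (by positivity)
      _ = (1 + ε / 2) / (1 + ε) * N := by
          field_simp
  -- the small term
  have e2 : u * x / l ≤ ε / 24 * N := by
    have e3 : x / l ≤ C₃ * (x / M) := by
      rw [mul_div_assoc', div_le_div_iff₀ hl hM]
      nlinarith
    have e4 : C₃ * (x / M) ≤ C₃ * (N / ((1 + ε) * Λ)) := mul_le_mul_of_nonneg_left hxM hC₃.le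
    have e5 : C₃ * (N / ((1 + ε) * Λ)) ≤ ε / 48 * N := by
      rw [mul_div_assoc', div_le_iff₀ (by positivity)]
      rw [div_le_iff₀ hε] at h3
      have e6 : C₃ ≤ ε / 48 * Λ := by linarith
      have e7 : Λ ≤ (1 + ε) * Λ := by nlinarith
      calc C₃ * N ≤ ε / 48 * ((1 + ε) * Λ) * N := by
            apply mul_le_mul_of_nonneg_right _ hN0.le
            refine e6.trans (mul_le_mul_of_nonneg_left e7 (by positivity))
        _ = ε / 48 * N * ((1 + ε) * Λ) := by ring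
    calc u * x / l = u * (x / l) := by ring
      _ ≤ 2 * (ε / 48 * N) := by
          apply mul_le_mul (by linarith) (e3.trans (e4.trans e5)) (by positivity) (by norm_num)
      _ = ε / 24 * N := by ring
  have e8 : (1 - θ) * (N - u * x / l) - (1 / θ - 1) * B * (u * x) =
      (1 - θ) * (N - u * x / l - u / θ * (B * x)) := by
    field_simp
  rw [e8]
  have e9 : u / θ * (B * x) ≤ (1 - ε / 12) * N := by
    calc u / θ * (B * x) ≤ u / θ * ((1 + ε / 2) / (1 + ε) * N) := by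
          apply mul_le_mul_of_nonneg_left e1
          positivity
      _ = (u / θ * ((1 + ε / 2) / (1 + ε))) * N := by ring
      _ ≤ (1 - ε / 12) * N := mul_le_mul_of_nonneg_right (num1 ε u θ hε hε1 hu hθ) hN0.le
  have e10 : ε / 24 * N ≤ N - u * x / l - u / θ * (B * x) := by linarith
  calc ε ^ 2 / 384 * N = (1 - θ) * (ε / 24 * N) := by rw [hθ]; ring
    _ ≤ _ := mul_le_mul_of_nonneg_left e10 (by rw [hθ]; linarith)

theorem barrier (ε : ℝ) (hε : 0 < ε) (hε1 : ε ≤ 1) : ∃ w₀ Λ₀ : ℝ, 3 ≤ w₀ ∧ 0 < Λ₀ ∧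
    ∀ w : ℝ, w₀ ≤ w → ∀ x : ℝ, Real.log w ≤ x → x ≤ w → Λ₀ ≤ Real.log (x / Real.log w) →
    ∀ S : Finset ℕ, (∀ p ∈ S, p.Prime ∧ w < (p : ℕ)) → ∀ (N : ℕ) (h : Fin N → ℤ),
    (∀ p ∈ S, ∀ i j, ((p : ℕ) : ℤ) ∣ h i - h j → i = j) →
    (1 + ε) * x * Real.log (x / Real.log w) ≤ N * MP w →
    ∀ V : ℤ → ℝ, V ∈ Level (∏ p ∈ S, p) (Real.exp x) →
    ε ^ 2 / 384 * N * (∏ p ∈ S, (1 - 1 / (p : ℝ))) * ∑ n ∈ range (∏ p ∈ S, p), V n ^ 2 ≤
    ∑ n ∈ range (∏ p ∈ S, p), V n ^ 2 *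
      (((univ : Finset (Fin N)).filter (fun k => ∀ p ∈ S, ¬ ((p : ℕ) : ℤ) ∣ n + h k)).card : ℝ) := by
  obtain ⟨C₁, w₁, hC₁, hw₁, hls⟩ := log_sum_upper (ε / 4) (by positivity) (by linarith)
  obtain ⟨C₃, hC₃, hMP⟩ := MP_upper
  refine ⟨max w₁ (1 + 16 / ε), max (4 * C₁ / ε) (48 * C₃ / ε), hw₁.trans (le_max_left _ _), ?_,
    fun w hw x hwx hxw hΛ S hS N h hh hN V hV => ?_⟩
  · refine lt_of_lt_of_le ?_ (le_max_right _ _)
    positivity
  have hww : w₁ ≤ w := (le_max_left _ _).trans hw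
  have hw3 : 3 ≤ w := hw₁.trans hww
  have hw16 : 1 + 16 / ε ≤ w := (le_max_right _ _).trans hw
  have hlw : 0 < Real.log w := Real.log_pos (by linarith)
  have hx0 : 0 < x := hlw.trans_le hwx
  have hB := hls w hww S hS x hwx hxw
  have hbar := bar_int S (fun p hp => (hS p hp).1) w (by linarith) (fun p hp => (hS p hp).2) x _
    hB N h hh (1 - ε / 16) (by linarith) (by linarith) V hV
  refine le_trans ?_ hbar
  have hsum : 0 ≤ ∑ n ∈ range (∏ p ∈ S, p), V n ^ 2 := Finset.sum_nonneg fun _ _ => sq_nonneg _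
  have hprod : 0 ≤ ∏ p ∈ S, (1 - 1 / (p : ℝ)) := by
    apply Finset.prod_nonneg
    intro p hp
    have : (1:ℝ) ≤ p := by exact_mod_cast (hS p hp).1.one_lt.le
    rw [sub_nonneg, div_le_one (by linarith)]
    exact this
  have hu1 : 1 ≤ w / (w - 1) := by rw [le_div_iff₀ (by linarith)]; linarith
  have hu2 : w / (w - 1) ≤ 1 + ε / 16 := by
    rw [div_le_iff₀ (by linarith)]
    have h1 : 16 / ε ≤ w - 1 := by linarith
    rw [div_le_iff₀ hε] at h1
    nlinarith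
  have hnum := num2 ε N (MP w) x (Real.log w) (Real.log (x / Real.log w)) C₁ C₃ (w / (w - 1))
    (1 - ε / 16) _ hε hε1 (MP_pos w) hlw hx0 (by
      have h1 : 0 < 48 * C₃ / ε := by positivity
      exact h1.trans_le ((le_max_right _ _).trans hΛ)) (by linarith) rfl (hMP w hw3) hu1 hu2 rfl
    (by
      have h1 := (le_max_left _ _).trans hΛ
      rw [div_le_iff₀ hε] at h1
      linarith) ((le_max_right _ _).trans hΛ) hN
  calc ε ^ 2 / 384 * N * (∏ p ∈ S, (1 - 1 / (p : ℝ))) * ∑ n ∈ range (∏ p ∈ S, p), V n ^ 2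
      = (∏ p ∈ S, (1 - 1 / (p : ℝ))) *
        ((ε ^ 2 / 384 * N) * ∑ n ∈ range (∏ p ∈ S, p), V n ^ 2) := by ring
    _ ≤ _ := mul_le_mul_of_nonneg_left (mul_le_mul_of_nonneg_right hnum hsum) hprod

/-- the Mertens product over primes in `(w, e^L]` -/
theorem prod_lower (C₃ : ℝ) (hMP : ∀ w : ℝ, 3 ≤ w → MP w ≤ C₃ * Real.log w) (L w : ℝ)
    (hL : 2 ≤ L) (hw : 1 ≤ w) (hwL : w ≤ Real.exp L) (S : Finset ℕ)
    (hS : ∀ p ∈ S, p.Prime ∧ w < (p : ℕ) ∧ ((p : ℕ) : ℝ) ≤ Real.exp L) :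
    MP w ≤ C₃ * L * ∏ p ∈ S, (1 - 1 / (p : ℝ)) := by
  have h3 : (3:ℝ) ≤ Real.exp L := by
    have := Real.add_one_le_exp L
    linarith
  have h1 := hMP (Real.exp L) h3
  rw [Real.log_exp] at h1
  have hpf : ∀ p ∈ S, 0 < 1 - 1 / (p : ℝ) := by
    intro p hp
    have h2 := (hS p hp).1.two_le
    have : (2:ℝ) ≤ p := by exact_mod_cast h2
    rw [sub_pos, div_lt_one (by linarith)]
    linarith
  have hprod : 0 < ∏ p ∈ S, (1 - 1 / (p : ℝ)) := Finset.prod_pos hpf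
  have h2 : MP w * ∏ p ∈ S, (1 - 1 / (p : ℝ))⁻¹ ≤ MP (Real.exp L) := by
    unfold MP
    have hdis : Disjoint ((Finset.Icc 1 ⌊w⌋₊).filter Nat.Prime) S := by
      rw [Finset.disjoint_left]
      intro p hp hpS
      have h4 := (mem_Icc.1 (mem_filter.1 hp).1).2
      have h5 : (p : ℝ) ≤ w := (Nat.cast_le.2 h4).trans (Nat.floor_le (by linarith))
      linarith [(hS p hpS).2.1]
    have e1 : ∏ p ∈ S, (1 - 1 / (p : ℝ))⁻¹ = ∏ p ∈ S, (1 - (p : ℝ)⁻¹)⁻¹ :=
      Finset.prod_congr rfl fun p _ => by rw [one_div]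
    rw [e1, ← Finset.prod_union hdis]
    have hone : ∀ p : ℕ, p.Prime → 1 ≤ (1 - (p:ℝ)⁻¹)⁻¹ := by
      intro p hp
      have h4 : (2:ℝ) ≤ p := by exact_mod_cast hp.two_le
      have h5 : (p:ℝ)⁻¹ ≤ 1 / 2 := by
        rw [inv_eq_one_div]
        exact one_div_le_one_div_of_le (by norm_num) h4
      have h6 : 0 < (p:ℝ)⁻¹ := by positivity
      exact (one_le_inv₀ (by linarith)).2 (by linarith)
    have hsub : (Finset.Icc 1 ⌊w⌋₊).filter Nat.Prime ∪ S ⊆
        (Finset.Icc 1 ⌊Real.exp L⌋₊).filter Nat.Prime := by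
      intro p hp
      rw [mem_union] at hp
      rw [mem_filter, mem_Icc]
      rcases hp with hp | hp
      · rw [mem_filter, mem_Icc] at hp
        exact ⟨⟨hp.1.1, hp.1.2.trans (Nat.floor_le_floor hwL)⟩, hp.2⟩
      · exact ⟨⟨(hS p hp).1.one_lt.le, Nat.le_floor (hS p hp).2.2⟩, (hS p hp).1⟩
    rw [← Finset.prod_sdiff hsub]
    apply le_mul_of_one_le_left
    · apply Finset.prod_nonneg
      intro p hp
      rw [mem_union] at hp
      have hpp : p.Prime := by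
        rcases hp with hp | hp
        · exact (mem_filter.1 hp).2
        · exact (hS p hp).1
      linarith [hone p hpp]
    · apply Finset.prod_induction _ (fun y : ℝ => 1 ≤ y)
        (fun a b ha hb => one_le_mul_of_one_le_of_one_le ha hb) le_rfl
      intro p hp
      rw [Finset.mem_sdiff] at hp
      exact hone p (mem_filter.1 hp.1).2
  rw [Finset.prod_inv_distrib, ← div_eq_mul_inv, div_le_iff₀ hprod] at h2
  exact h2.trans (mul_le_mul_of_nonneg_right h1 hprod.le)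

theorem cov_final (ε : ℝ) (hε : 0 < ε) (hε1 : ε ≤ 1 / 10) : ∃ L₀ : ℝ, ∀ L : ℝ, L₀ ≤ L →
    ∀ (N : ℕ) (h : Fin N → ℤ), (∀ p : ℕ, p.Prime → L ^ 2 < p → ∀ i j, (p : ℤ) ∣ h i - h j → i = j) →
    N * MP (L ^ 2) ≤ (1 / 2 - ε) * L * Real.log L →
    ∀ M : ℤ, ∃ n : ℤ, M ≤ n ∧ (n : ℝ) ≤ M + Real.exp L ∧ ∀ k, ∃ p : ℕ, p.Prime ∧ L ^ 2 < p ∧
      (p : ℝ) ≤ Real.exp (ε * L) ∧ (p : ℤ) ∣ n + h k := by
  obtain ⟨Λ₀, L₁, hΛ₀, hcov⟩ := cov_sharp (ε / 2) (by positivity) (by linarith)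
  obtain ⟨L₂, hL₂⟩ := ev_cov ε ε 0 hε hε
  have h1 : ∀ᶠ L : ℝ in atTop, Real.log L ≤ (ε * Real.exp (-Λ₀)) * L := by
    have e2 := Real.isLittleO_log_id_atTop.def (show (0:ℝ) < ε * Real.exp (-Λ₀) by positivity)
    filter_upwards [e2, eventually_ge_atTop (1:ℝ)] with t ht ht1
    rw [Real.norm_eq_abs, abs_of_nonneg (Real.log_nonneg ht1), Real.norm_eq_abs] at ht
    simp only [id] at ht
    rwa [abs_of_nonneg (by linarith)] at ht
  obtain ⟨L₃, hL₃⟩ := eventually_atTop.1 h1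
  set r : ℕ := ⌈80 / ε⌉₊ with hr
  have hr1 : 80 / ε ≤ r := Nat.le_ceil _
  have hr0 : (0:ℝ) < r := lt_of_lt_of_le (by positivity) hr1
  refine ⟨max (max L₁ L₂) (max L₃ (16 * Real.log (4 * r) / ε * 2)), fun L hL N h hh hN M => ?_⟩
  have hLa : L₁ ≤ L := ((le_max_left _ _).trans (le_max_left _ _)).trans hL
  have hLb : L₂ ≤ L := ((le_max_right _ _).trans (le_max_left _ _)).trans hL
  have hLc : L₃ ≤ L := ((le_max_left _ _).trans (le_max_right _ _)).trans hL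
  have hLd : 16 * Real.log (4 * r) / ε * 2 ≤ L :=
    ((le_max_right _ _).trans (le_max_right _ _)).trans hL
  obtain ⟨g1, _, g3, g4, g5, _, _⟩ := hL₂ L hLb
  have g6 := hL₃ L hLc
  have hL0 : 0 < L := by linarith
  have hl0 : 0 < Real.log L := by linarith
  set Λ : ℝ := Real.log (ε * L / Real.log L) with hΛ
  have hq0 : 0 < ε * L / Real.log L := by positivity
  have hΛ1 : Λ₀ ≤ Λ := by
    rw [hΛ, Real.le_log_iff_exp_le hq0, le_div_iff₀ hl0]
    have : Real.exp Λ₀ * Real.log L ≤ Real.exp Λ₀ * ((ε * Real.exp (-Λ₀)) * L) :=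
      mul_le_mul_of_nonneg_left g6 (Real.exp_pos _).le
    refine this.trans (le_of_eq ?_)
    have e1 : Real.exp Λ₀ * Real.exp (-Λ₀) = 1 := by rw [← Real.exp_add]; simp
    calc Real.exp Λ₀ * ((ε * Real.exp (-Λ₀)) * L) =
        (Real.exp Λ₀ * Real.exp (-Λ₀)) * (ε * L) := by ring
      _ = ε * L := by rw [e1, one_mul]
  have hΛeq : Λ = Real.log L - (Real.log (Real.log L) + Real.log (1 / ε)) := by
    rw [hΛ, Real.log_div (by positivity) hl0.ne', Real.log_mul hε.ne' hL0.ne', one_div,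
      Real.log_inv]
    ring
  have hll : 0 ≤ Real.log (Real.log L) := Real.log_nonneg (by linarith)
  have hle : 0 ≤ Real.log (1 / ε) := by
    apply Real.log_nonneg
    rw [le_div_iff₀ hε]; linarith
  have hΛ2 : Λ ≤ Real.log L := by rw [hΛeq]; linarith
  have hN2 : (Fintype.card (Fin N) : ℝ) * MP (L ^ 2) ≤ (1 / 2 - ε / 2) * L * Λ := by
    rw [Fintype.card_fin]
    refine hN.trans ?_
    have e1 : (1 / 2 - ε) * Real.log L ≤ (1 / 2 - ε / 2) * Λ := by
      rw [hΛeq]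
      have e2 : (1 / 2 - ε / 2) * (Real.log (Real.log L) + Real.log (1 / ε)) ≤
          1 / 2 * (2 * Real.log (Real.log L) + Real.log (1 / ε)) := by
        nlinarith
      nlinarith
    calc (1 / 2 - ε) * L * Real.log L = L * ((1 / 2 - ε) * Real.log L) := by ring
      _ ≤ L * ((1 / 2 - ε / 2) * Λ) := mul_le_mul_of_nonneg_left e1 hL0.le
      _ = _ := by ring
  set H : ℕ := ⌊Real.exp L / r⌋₊ with hH
  have hHr : (H : ℝ) * r ≤ Real.exp L := by
    have := Nat.floor_le (show 0 ≤ Real.exp L / r by positivity)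
    rwa [← hH, le_div_iff₀ hr0] at this
  have hHl : Real.exp ((1 - ε / 2 / 8) * L) ≤ H := by
    have e1 : Real.log (4 * r) ≤ ε / 2 / 8 * L := by
      have : 16 * Real.log (4 * r) / ε * 2 = 32 * Real.log (4 * r) / ε := by ring
      rw [this, div_le_iff₀ hε] at hLd
      have e0 : 0 ≤ Real.log (4 * r) := by
        apply Real.log_nonneg
        have : (1:ℝ) ≤ r := by
          have : 1 ≤ 80 / ε := by rw [le_div_iff₀ hε]; linarith
          linarith
        linarith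
      nlinarith
    have e2 : 4 * (r : ℝ) ≤ Real.exp (ε / 2 / 8 * L) := by
      rw [← Real.log_le_iff_le_exp (by positivity)]
      exact e1
    have e3 : Real.exp L = Real.exp ((1 - ε / 2 / 8) * L) * Real.exp (ε / 2 / 8 * L) := by
      rw [← Real.exp_add]; congr 1; ring
    have e4 : 1 ≤ Real.exp ((1 - ε / 2 / 8) * L) := Real.one_le_exp (by
      apply mul_nonneg _ hL0.le
      linarith)
    have e5 : 4 * Real.exp ((1 - ε / 2 / 8) * L) ≤ Real.exp L / r := by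
      rw [le_div_iff₀ hr0, e3]
      have := mul_le_mul_of_nonneg_left e2 (Real.exp_pos ((1 - ε / 2 / 8) * L)).le
      linarith
    have e6 := Nat.lt_floor_add_one (Real.exp L / r)
    rw [← hH] at e6
    linarith
  obtain ⟨a, ha⟩ := hcov L hLa Λ hΛ1 hΛ2 (Fin N) hN2 (fun _ k => -(h k) - M) (by
    intro p hp hpL k l hkl hdiv
    apply hkl
    have e1 : (-(h k) - M) - (-(h l) - M) = h l - h k := by ring
    rw [e1] at hdiv
    exact (hh p hp hpL l k hdiv).symm) H r hHl (by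
      have : 40 / (ε / 2) = 80 / ε := by
        field_simp
        norm_num
      rw [this]
      exact hr1)
  refine ⟨M + ∑ i, ((a i : ℕ) : ℤ), ?_, ?_, fun k => ?_⟩
  · have : (0:ℤ) ≤ ∑ i, ((a i : ℕ) : ℤ) := Finset.sum_nonneg fun i _ => by positivity
    linarith
  · push_cast
    have e1 : ∑ i, ((a i : ℕ) : ℝ) ≤ ∑ i : Fin r, (H : ℝ) :=
      Finset.sum_le_sum fun i _ => by exact_mod_cast (a i).2.le
    rw [Finset.sum_const, Finset.card_univ, Fintype.card_fin, nsmul_eq_mul] at e1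
    linarith
  · obtain ⟨p, hp, hpL, hpy, hpd⟩ := ha k
    refine ⟨p, hp, hpL, ?_, ?_⟩
    · have e1 : Real.log L * Real.exp Λ = ε * L := by
        rw [hΛ, Real.exp_log hq0]
        field_simp
      rw [e1] at hpy
      have hp0 : (0:ℝ) < p := by exact_mod_cast hp.pos
      rwa [Real.log_le_iff_le_exp hp0] at hpy
    · have e1 : M + ∑ i, ((a i : ℕ) : ℤ) + h k = ∑ i, ((a i : ℕ) : ℤ) - (-(h k) - M) := by ring
      rw [e1]
      exact hpd

/-- the final theorem -/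
theorem threshold (ε : ℝ) (hε : 0 < ε) (hε1 : ε ≤ 1 / 10) : ∃ c L₀ : ℝ, 0 < c ∧ ∀ L : ℝ, L₀ ≤ L →
    (∀ (N : ℕ) (h : Fin N → ℤ), (∀ p : ℕ, p.Prime → L ^ 2 < p → ∀ i j, (p : ℤ) ∣ h i - h j → i = j) →
      N * MP (L ^ 2) ≤ (1 / 2 - ε) * L * Real.log L →
      ∀ M : ℤ, ∃ n : ℤ, M ≤ n ∧ (n : ℝ) ≤ M + Real.exp L ∧ ∀ k, ∃ p : ℕ, p.Prime ∧ L ^ 2 < p ∧
        (p : ℝ) ≤ Real.exp (ε * L) ∧ (p : ℤ) ∣ n + h k) ∧
    (∀ w : ℝ, L ≤ w → w ≤ Real.exp (c * L) → ∀ S : Finset ℕ, (∀ p ∈ S, p.Prime ∧ w < (p : ℕ)) →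
      ∀ (N : ℕ) (h : Fin N → ℤ), (∀ p ∈ S, ∀ i j, ((p : ℕ) : ℤ) ∣ h i - h j → i = j) →
      (1 / 2 + ε) * L * Real.log (L / Real.log w) ≤ N * MP w →
      ∀ (J : ℕ) (V : Fin J → ℤ → ℝ), (∀ j, V j ∈ Level (∏ p ∈ S, p) (Real.exp (L / 2))) →
      c * N * (∏ p ∈ S, (1 - 1 / (p : ℝ))) * ∑ n ∈ range (∏ p ∈ S, p), ∑ j, V j n ^ 2 ≤
        ∑ n ∈ range (∏ p ∈ S, p), (∑ j, V j n ^ 2) *
          (((univ : Finset (Fin N)).filter
            (fun k => ∀ p ∈ S, ¬ ((p : ℕ) : ℤ) ∣ n + h k)).card : ℝ) ∧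
      ((∀ p ∈ S, ((p : ℕ) : ℝ) ≤ Real.exp L) →
        c * Real.log (L / Real.log w) * ∑ n ∈ range (∏ p ∈ S, p), ∑ j, V j n ^ 2 ≤
        ∑ n ∈ range (∏ p ∈ S, p), (∑ j, V j n ^ 2) *
          (((univ : Finset (Fin N)).filter
            (fun k => ∀ p ∈ S, ¬ ((p : ℕ) : ℤ) ∣ n + h k)).card : ℝ))) := by
  obtain ⟨L₁, hcov⟩ := cov_final ε hε hε1
  obtain ⟨w₀, Λ₀, hw₀, hΛ₀, hbar⟩ := barrier (2 * ε) (by positivity) (by linarith)
  obtain ⟨C₃, hC₃, hMP⟩ := MP_upper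
  set c : ℝ := min (min ((2 * ε) ^ 2 / 384) ((2 * ε) ^ 2 / 384 / (2 * C₃))) (Real.exp (-Λ₀) / 2)
    with hc
  have hc1 : c ≤ (2 * ε) ^ 2 / 384 := (min_le_left _ _).trans (min_le_left _ _)
  have hc2 : c ≤ (2 * ε) ^ 2 / 384 / (2 * C₃) := (min_le_left _ _).trans (min_le_right _ _)
  have hc3 : c ≤ Real.exp (-Λ₀) / 2 := min_le_right _ _
  have hc0 : 0 < c := by
    rw [hc]
    refine lt_min (lt_min (by positivity) (by positivity)) (by positivity)
  refine ⟨c, max L₁ (max w₀ 4), hc0, fun L hL => ⟨?_, ?_⟩⟩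
  · exact hcov L ((le_max_left _ _).trans hL)
  have hLw : w₀ ≤ L := ((le_max_left _ _).trans (le_max_right _ _)).trans hL
  have hL4 : 4 ≤ L := ((le_max_right _ _).trans (le_max_right _ _)).trans hL
  intro w hwL hwc S hS N h hh hN J V hV
  have hw0 : 0 < w := by linarith
  have hlw : 0 < Real.log w := Real.log_pos (by linarith)
  have hlwc : Real.log w ≤ c * L := by
    rw [Real.log_le_iff_le_exp hw0]
    exact hwc
  have hexp1 : Real.exp (-Λ₀) ≤ 1 := Real.exp_le_one_iff.2 (by linarith)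
  have hlwL : Real.log w ≤ L / 2 * Real.exp (-Λ₀) := by
    refine hlwc.trans ?_
    have := mul_le_mul_of_nonneg_right hc3 (show 0 ≤ L by linarith)
    linarith
  have hx1 : Real.log w ≤ L / 2 := by
    refine hlwL.trans ?_
    have : L / 2 * Real.exp (-Λ₀) ≤ L / 2 * 1 := mul_le_mul_of_nonneg_left hexp1 (by linarith)
    linarith
  have hx2 : L / 2 ≤ w := by linarith
  have hx3 : Λ₀ ≤ Real.log (L / 2 / Real.log w) := by
    rw [Real.le_log_iff_exp_le (by positivity), le_div_iff₀ hlw]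
    have e1 : Real.exp Λ₀ * Real.exp (-Λ₀) = 1 := by rw [← Real.exp_add]; simp
    calc Real.exp Λ₀ * Real.log w ≤ Real.exp Λ₀ * (L / 2 * Real.exp (-Λ₀)) :=
          mul_le_mul_of_nonneg_left hlwL (Real.exp_pos _).le
      _ = (Real.exp Λ₀ * Real.exp (-Λ₀)) * (L / 2) := by ring
      _ = L / 2 := by rw [e1, one_mul]
  have hx4 : Real.log (L / 2 / Real.log w) ≤ Real.log (L / Real.log w) := by
    apply Real.log_le_log (by positivity)
    apply div_le_div_of_nonneg_right _ hlw.le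
    linarith
  have hN2 : (1 + 2 * ε) * (L / 2) * Real.log (L / 2 / Real.log w) ≤ N * MP w := by
    refine le_trans ?_ hN
    have e1 : (1 + 2 * ε) * (L / 2) = (1 / 2 + ε) * L := by ring
    rw [e1]
    exact mul_le_mul_of_nonneg_left hx4 (by positivity)
  have hprod : 0 ≤ ∏ p ∈ S, (1 - 1 / (p : ℝ)) := by
    apply Finset.prod_nonneg
    intro p hp
    have : (1:ℝ) ≤ p := by exact_mod_cast (hS p hp).1.one_lt.le
    rw [sub_nonneg, div_le_one (by linarith)]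
    exact this
  have hsum : 0 ≤ ∑ n ∈ range (∏ p ∈ S, p), ∑ j, V j n ^ 2 :=
    Finset.sum_nonneg fun _ _ => Finset.sum_nonneg fun _ _ => sq_nonneg _
  have hmain : (2 * ε) ^ 2 / 384 * N * (∏ p ∈ S, (1 - 1 / (p : ℝ))) *
      ∑ n ∈ range (∏ p ∈ S, p), ∑ j, V j n ^ 2 ≤
        ∑ n ∈ range (∏ p ∈ S, p), (∑ j, V j n ^ 2) *
          (((univ : Finset (Fin N)).filter
            (fun k => ∀ p ∈ S, ¬ ((p : ℕ) : ℤ) ∣ n + h k)).card : ℝ) := by
    have e1 := Finset.sum_le_sum fun j (_ : j ∈ (univ : Finset (Fin J))) =>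
      hbar w (hLw.trans hwL) (L / 2) hx1 hx2 hx3 S hS N h hh hN2 (V j) (hV j)
    rw [← Finset.mul_sum, Finset.sum_comm] at e1
    refine e1.trans (le_of_eq ?_)
    rw [Finset.sum_comm]
    refine Finset.sum_congr rfl fun n _ => ?_
    rw [Finset.sum_mul]
  constructor
  · refine le_trans ?_ hmain
    apply mul_le_mul_of_nonneg_right _ hsum
    apply mul_le_mul_of_nonneg_right _ hprod
    exact mul_le_mul_of_nonneg_right hc1 (Nat.cast_nonneg N)
  · intro hSL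
    refine le_trans ?_ hmain
    apply mul_le_mul_of_nonneg_right _ hsum
    have hwe : w ≤ Real.exp L := by
      rw [← Real.log_le_iff_le_exp hw0]
      linarith
    have e1 := prod_lower C₃ hMP L w (by linarith) (by linarith) hwe S
      fun p hp => ⟨(hS p hp).1, (hS p hp).2, hSL p hp⟩
    set P := ∏ p ∈ S, (1 - 1 / (p : ℝ)) with hP
    have hlog0 : 0 ≤ Real.log (L / Real.log w) := by
      refine le_trans ?_ hx4
      linarith
    have e2 : 1 / 2 * L * Real.log (L / Real.log w) ≤ N * (C₃ * L * P) := by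
      calc 1 / 2 * L * Real.log (L / Real.log w) ≤ (1 / 2 + ε) * L * Real.log (L / Real.log w) := by
            apply mul_le_mul_of_nonneg_right _ hlog0
            nlinarith
        _ ≤ N * MP w := hN
        _ ≤ N * (C₃ * L * P) := mul_le_mul_of_nonneg_left e1 (Nat.cast_nonneg N)
    have e3 : Real.log (L / Real.log w) ≤ 2 * C₃ * (N * P) := by
      have hL0 : 0 < L := by linarith
      have e4 : L * Real.log (L / Real.log w) ≤ L * (2 * C₃ * (N * P)) := by nlinarith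
      exact le_of_mul_le_mul_left e4 hL0
    calc c * Real.log (L / Real.log w)
        ≤ (2 * ε) ^ 2 / 384 / (2 * C₃) * Real.log (L / Real.log w) :=
          mul_le_mul_of_nonneg_right hc2 hlog0
      _ ≤ (2 * ε) ^ 2 / 384 / (2 * C₃) * (2 * C₃ * (N * P)) :=
          mul_le_mul_of_nonneg_left e3 (by positivity)
      _ = (2 * ε) ^ 2 / 384 * N * P := by field_simp

end Pool.Agent.K4H10.BR
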