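import Pool.Agent.K4H10.EX.Euler
import Pool.Agent.K4H10.EX.Cov1

set_option autoImplicit false
set_option linter.unusedSectionVars false

/-! # Lower bound for the sum of `1/a` over smooth numbers, upper bound over rough numbers -/

namespace Pool.Agent.K4H10.BR

open Finset Pool.Agent.K4H10.EX Pool.Agent.H318R2.Cr Pool.Agent.H398R2.RK

open scoped Classical

/-- `n ↦ n ^ (-s)` -/
noncomputable def pw (s : ℝ) : ℕ →* ℝ where
  toFun n := (n:ℝ) ^ (-s)
  map_one' := by simp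
  map_mul' a b := by
    push_cast
    exact Real.mul_rpow (Nat.cast_nonneg a) (Nat.cast_nonneg b)

theorem smooth_lower : ∃ C : ℝ, 1 ≤ C ∧ ∀ w : ℝ, 3 ≤ w → ∀ A : ℝ, 0 ≤ A →
    (1 - C * Real.exp (-(A / 4))) * MP w ≤
      ∑ a ∈ (Icc 1 ⌊Real.exp (A * Real.log w)⌋₊).filter
        (fun a => a ∈ Nat.factoredNumbers (Icc 1 ⌊w⌋₊)), (a : ℝ)⁻¹ := by
  obtain ⟨C, hC1, hE⟩ := euler_sharp
  refine ⟨C * Real.exp (2 * (1 + C)), ?_, fun w hw A hA => ?_⟩
  · have : 1 ≤ Real.exp (2 * (1 + C)) := Real.one_le_exp (by linarith)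
    nlinarith
  set v : ℕ := ⌊w⌋₊ with hv
  set u : ℝ := Real.exp (A * Real.log w) with hu
  have hu0 : 0 < u := Real.exp_pos _
  have hv3 : 3 ≤ v := Nat.le_floor (by exact_mod_cast hw)
  have hv3' : (3:ℝ) ≤ v := by exact_mod_cast hv3
  have hvw : (v:ℝ) ≤ w := Nat.floor_le (by linarith)
  have he3 : 1 ≤ Real.log 3 := by
    rw [Real.le_log_iff_exp_le (by norm_num)]
    have := Real.exp_one_lt_d9
    linarith
  have hlv : 1 ≤ Real.log v := he3.trans (Real.log_le_log (by norm_num) hv3')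
  have hlvw : Real.log v ≤ Real.log w := Real.log_le_log (by linarith) hvw
  set η : ℝ := 1 / (4 * Real.log v) with hη
  have hη0 : 0 < η := by rw [hη]; positivity
  have hη1 : η ≤ 1 / 4 := by
    rw [hη, div_le_div_iff₀ (by positivity) (by norm_num)]
    linarith
  have hηw : 1 / 4 ≤ η * Real.log w := by
    rw [hη, div_mul_eq_mul_div, one_mul, div_le_div_iff₀ (by norm_num) (by positivity)]
    linarith
  have hvη : (v:ℝ) ^ η ≤ 2 := by
    rw [Real.rpow_def_of_pos (by linarith), hη]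
    have : Real.log v * (1 / (4 * Real.log v)) = 1 / 4 := by field_simp
    rw [this]
    have h1 : Real.exp (1 / 4) ≤ Real.exp (Real.log 2) := by
      apply Real.exp_le_exp.2
      have := Real.log_two_gt_d9
      linarith
    rwa [Real.exp_log (by norm_num)] at h1
  -- the two series
  have hs1 : 0 < 1 - η := by linarith
  have h1 := EulerProduct.summable_and_hasSum_factoredNumbers_prod_filter_prime_geometric
    (f := pw 1) (fun {p} hp => by
      show ‖(p : ℝ) ^ (-(1:ℝ))‖ < 1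
      rw [Real.norm_eq_abs, abs_of_nonneg (by positivity)]
      exact Real.rpow_lt_one_of_one_lt_of_neg (by exact_mod_cast hp.one_lt) (by norm_num))
      (Icc 1 v)
  have h2 := EulerProduct.summable_and_hasSum_factoredNumbers_prod_filter_prime_geometric
    (f := pw (1 - η)) (fun {p} hp => by
      show ‖(p : ℝ) ^ (-(1 - η))‖ < 1
      rw [Real.norm_eq_abs, abs_of_nonneg (by positivity)]
      exact Real.rpow_lt_one_of_one_lt_of_neg (by exact_mod_cast hp.one_lt) (by linarith))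
      (Icc 1 v)
  set F : Set ℕ := Nat.factoredNumbers (Icc 1 v) with hF
  set S := (Icc 1 ⌊u⌋₊).filter (fun a => a ∈ F) with hS
  have h3 : HasSum (fun m : F => (if ((m : ℕ) : ℝ) ≤ u then ((m : ℕ) : ℝ)⁻¹ else 0))
      (∑ a ∈ S, (a : ℝ)⁻¹) := by
    have e1 : HasSum (F.indicator (fun m : ℕ => (if (m : ℝ) ≤ u then (m : ℝ)⁻¹ else 0)))
        (∑ a ∈ S, F.indicator (fun m : ℕ => (if (m : ℝ) ≤ u then (m : ℝ)⁻¹ else 0)) a) := by
      apply hasSum_sum_of_ne_finset_zero
      intro b hb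
      by_cases hbF : b ∈ F
      · rw [Set.indicator_of_mem hbF]
        have hb0 : b ≠ 0 := Nat.ne_zero_of_mem_factoredNumbers hbF
        rw [if_neg]
        intro hbu
        exact hb (mem_filter.2 ⟨mem_Icc.2 ⟨Nat.pos_of_ne_zero hb0, Nat.le_floor hbu⟩, hbF⟩)
      · exact Set.indicator_of_notMem hbF _
    have e2 : ∑ a ∈ S, F.indicator (fun m : ℕ => (if (m : ℝ) ≤ u then (m : ℝ)⁻¹ else 0)) a =
        ∑ a ∈ S, (a : ℝ)⁻¹ := by
      refine Finset.sum_congr rfl fun a ha => ?_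
      rw [hS, mem_filter, mem_Icc] at ha
      rw [Set.indicator_of_mem ha.2, if_pos]
      exact (Nat.cast_le.2 ha.1.2).trans (Nat.floor_le hu0.le)
    rw [e2] at e1
    exact hasSum_subtype_iff_indicator.2 e1
  have h4 : HasSum (fun m : F => ((m : ℕ) : ℝ)⁻¹) (MP w) := by
    have e1 := h1.2
    have e2 : ∏ p ∈ Icc 1 v with p.Prime, (1 - pw 1 p)⁻¹ = MP w := by
      unfold MP
      refine Finset.prod_congr rfl fun p _ => ?_
      show (1 - (p : ℝ) ^ (-(1:ℝ)))⁻¹ = _
      rw [Real.rpow_neg_one]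
    rw [e2] at e1
    have e3 : (fun m : F => ((m : ℕ) : ℝ)⁻¹) = fun m : F => pw 1 (m : ℕ) := by
      funext m
      show ((m : ℕ) : ℝ)⁻¹ = ((m : ℕ) : ℝ) ^ (-(1:ℝ))
      rw [Real.rpow_neg_one]
    rw [e3]
    exact e1
  have h5 : ∏ p ∈ Icc 1 v with p.Prime, (1 - pw (1 - η) p)⁻¹ ≤
      C * Real.log v * Real.exp ((v : ℝ) ^ η * (1 + C / Real.log v)) := by
    have e1 := hE η v hη0.le hη1 (by omega)
    have e2 : ∏ p ∈ Icc 1 v with p.Prime, (1 - pw (1 - η) p)⁻¹ =
        ∏ p ∈ Pz v, (1 - (p : ℝ) ^ (-(1 - η)))⁻¹ := by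
      refine Finset.prod_congr ?_ fun p _ => rfl
      ext p
      rw [mem_filter, mem_Icc, mem_Pz]
      exact ⟨fun h => ⟨h.2, h.1.2⟩, fun h => ⟨⟨h.1.one_lt.le, h.2⟩, h.1⟩⟩
    rw [e2]
    exact e1
  have h6 : C * Real.log v * Real.exp ((v : ℝ) ^ η * (1 + C / Real.log v)) ≤
      C * Real.exp (2 * (1 + C)) * MP w := by
    have e1 : Real.log v ≤ MP w := hlvw.trans (MP_lower w (by linarith))
    have e2 : (v : ℝ) ^ η * (1 + C / Real.log v) ≤ 2 * (1 + C) := by
      have e3 : C / Real.log v ≤ C := div_le_self (by linarith) hlv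
      have e4 : 0 ≤ C / Real.log v := by positivity
      exact mul_le_mul hvη (by linarith) (by linarith) (by norm_num)
    calc C * Real.log v * Real.exp ((v : ℝ) ^ η * (1 + C / Real.log v))
        ≤ C * MP w * Real.exp (2 * (1 + C)) := by
          apply mul_le_mul
          · exact mul_le_mul_of_nonneg_left e1 (by linarith)
          · exact Real.exp_le_exp.2 e2
          · positivity
          · exact mul_nonneg (by linarith) (MP_pos w).le
      _ = _ := by ring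
  have h7 := h2.2.mul_left (Real.exp (-(A / 4)))
  have h8 := h3.add h7
  have h9 : MP w ≤ ∑ a ∈ S, (a : ℝ)⁻¹ +
      Real.exp (-(A / 4)) * ∏ p ∈ Icc 1 v with p.Prime, (1 - pw (1 - η) p)⁻¹ := by
    refine hasSum_le ?_ h4 h8
    intro m
    have hm0 : (m : ℕ) ≠ 0 := Nat.ne_zero_of_mem_factoredNumbers m.2
    have hm : (0:ℝ) < ((m : ℕ) : ℝ) := by exact_mod_cast Nat.pos_of_ne_zero hm0
    have hp : (0:ℝ) < pw (1 - η) (m : ℕ) := by
      show 0 < ((m : ℕ) : ℝ) ^ (-(1 - η))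
      positivity
    by_cases hmu : ((m : ℕ) : ℝ) ≤ u
    · rw [if_pos hmu]
      have := mul_pos (Real.exp_pos (-(A / 4))) hp
      linarith
    · rw [if_neg hmu, zero_add]
      push Not at hmu
      show ((m : ℕ) : ℝ)⁻¹ ≤ Real.exp (-(A / 4)) * ((m : ℕ) : ℝ) ^ (-(1 - η))
      have e1 : ((m : ℕ) : ℝ)⁻¹ = ((m : ℕ) : ℝ) ^ (-η) * ((m : ℕ) : ℝ) ^ (-(1 - η)) := by
        rw [← Real.rpow_add hm, ← Real.rpow_neg_one]
        congr 1
        ring
      rw [e1]
      apply mul_le_mul_of_nonneg_right _ (by positivity)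
      calc ((m : ℕ) : ℝ) ^ (-η) ≤ u ^ (-η) :=
            Real.rpow_le_rpow_of_nonpos hu0 hmu.le (by linarith)
        _ = Real.exp (A * Real.log w * (-η)) := by
            rw [hu, ← Real.exp_mul]
        _ ≤ Real.exp (-(A / 4)) := by
            apply Real.exp_le_exp.2
            nlinarith
  have h10 : Real.exp (-(A / 4)) * ∏ p ∈ Icc 1 v with p.Prime, (1 - pw (1 - η) p)⁻¹ ≤
      Real.exp (-(A / 4)) * (C * Real.exp (2 * (1 + C)) * MP w) :=
    mul_le_mul_of_nonneg_left (h5.trans h6) (Real.exp_pos _).le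
  have h11 : (1 - C * Real.exp (2 * (1 + C)) * Real.exp (-(A / 4))) * MP w =
      MP w - Real.exp (-(A / 4)) * (C * Real.exp (2 * (1 + C)) * MP w) := by ring
  rw [h11]
  linarith

/-- upper bound for the sum over the squarefree numbers up to `x` with all prime factors in `S`,
where all primes of `S` exceed `w` -/
theorem rough_upper (δ : ℝ) (hδ : 0 < δ) (hδ1 : δ ≤ 1) : ∃ A : ℝ, 1 ≤ A ∧ ∀ w : ℝ, 3 ≤ w →
    ∀ S : Finset ℕ, (∀ p ∈ S, p.Prime ∧ w < p) → ∀ x : ℝ, 0 ≤ x →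
    ∑ s ∈ S.powerset.filter (fun s : Finset ℕ => ∑ p ∈ s, Real.log (p : ℕ) ≤ x), ∏ p ∈ s, 1 / (p : ℝ) ≤
      (1 + δ) * (x + A * Real.log w) / MP w := by
  obtain ⟨C, hC1, hsm⟩ := smooth_lower
  set A : ℝ := max 1 (4 * Real.log (4 * C / δ)) with hA
  have hA1 : 1 ≤ A := le_max_left _ _
  have hCe : C * Real.exp (-(A / 4)) ≤ δ / 4 := by
    have h1 : Real.log (4 * C / δ) ≤ A / 4 := by
      have := le_max_right 1 (4 * Real.log (4 * C / δ))
      rw [← hA] at this
      linarith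
    have h2 : Real.exp (-(A / 4)) ≤ δ / (4 * C) := by
      calc Real.exp (-(A / 4)) ≤ Real.exp (-Real.log (4 * C / δ)) := Real.exp_le_exp.2 (by linarith)
        _ = δ / (4 * C) := by
          rw [Real.exp_neg, Real.exp_log (by positivity), inv_div]
    calc C * Real.exp (-(A / 4)) ≤ C * (δ / (4 * C)) :=
          mul_le_mul_of_nonneg_left h2 (by linarith)
      _ = δ / 4 := by field_simp
  refine ⟨A + 1, by linarith, fun w hw S hS x hx => ?_⟩
  have hlw : 1 ≤ Real.log w := by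
    have he3 : 1 ≤ Real.log 3 := by
      rw [Real.le_log_iff_exp_le (by norm_num)]
      have := Real.exp_one_lt_d9
      linarith
    exact he3.trans (Real.log_le_log (by norm_num) hw)
  have hM := MP_pos w
  have h1 := hsm w hw A (by linarith)
  set u : ℝ := Real.exp (A * Real.log w) with hu
  set T := (Icc 1 ⌊u⌋₊).filter (fun a => a ∈ Nat.factoredNumbers (Icc 1 ⌊w⌋₊)) with hT
  set W := S.powerset.filter (fun s : Finset ℕ => ∑ p ∈ s, Real.log (p : ℕ) ≤ x) with hW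
  have h2 : (1 - δ / 4) * MP w ≤ ∑ a ∈ T, (a : ℝ)⁻¹ := by
    refine le_trans ?_ h1
    apply mul_le_mul_of_nonneg_right _ hM.le
    linarith
  -- the product of the two sums
  have hWp : ∀ s ∈ W, ∀ p ∈ s, p.Prime ∧ w < p := by
    intro s hs p hp
    rw [hW, mem_filter, mem_powerset] at hs
    exact hS p (hs.1 hp)
  have hprod : ∀ s ∈ W, ((∏ p ∈ s, p : ℕ) : ℝ) ≤ Real.exp x := by
    intro s hs
    have hx := (mem_filter.1 hs).2
    have h3 : Real.log ((∏ p ∈ s, p : ℕ) : ℝ) = ∑ p ∈ s, Real.log (p : ℕ) := by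
      push_cast
      rw [Real.log_prod]
      intro p hp
      have := (hWp s hs p hp).1.pos
      positivity
    rw [← Real.exp_log (show (0:ℝ) < ((∏ p ∈ s, p : ℕ) : ℝ) by
      exact_mod_cast Finset.prod_pos fun p hp => (hWp s hs p hp).1.pos), h3]
    exact Real.exp_le_exp.2 hx
  have hinj : Set.InjOn (fun t : Finset ℕ × ℕ => t.2 * ∏ p ∈ t.1, p) (W ×ˢ T : Finset _) := by
    rintro ⟨s, a⟩ h1 ⟨s', a'⟩ h2 h
    rw [Finset.mem_coe, mem_product] at h1 h2
    simp only at h1 h2 h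
    have key : ∀ (s s' : Finset ℕ) (a a' : ℕ), s ∈ W → s' ∈ W → a ∈ T → a' ∈ T →
        a * ∏ p ∈ s, p = a' * ∏ p ∈ s', p → s ⊆ s' := by
      intro s s' a a' hs hs' ha ha' h p hp
      have hpp := hWp s hs p hp
      have h3 : p ∣ a' * ∏ p ∈ s', p := by
        rw [← h]
        exact Dvd.dvd.mul_left (Finset.dvd_prod_of_mem _ hp) _
      rcases (hpp.1.dvd_mul).1 h3 with h4 | h4
      · exfalso
        have h5 := (Nat.mem_factoredNumbers'.1 (mem_filter.1 ha').2) p hpp.1 h4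
        rw [mem_Icc] at h5
        have h6 : (p:ℝ) ≤ w := (Nat.cast_le.2 h5.2).trans (Nat.floor_le (by linarith))
        linarith [hpp.2]
      · rw [Prime.dvd_finsetProd_iff hpp.1.prime] at h4
        obtain ⟨q, hq, hpq⟩ := h4
        have := (Nat.prime_dvd_prime_iff_eq hpp.1 (hWp s' hs' q hq).1).1 hpq
        rw [this]; exact hq
    have hss : s = s' := Finset.Subset.antisymm (key s s' a a' h1.1 h2.1 h1.2 h2.2 h)
      (key s' s a' a h2.1 h1.1 h2.2 h1.2 h.symm)
    subst hss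
    have hpos : 0 < ∏ p ∈ s, p := Finset.prod_pos fun p hp => (hWp s h1.1 p hp).1.pos
    have : a = a' := Nat.eq_of_mul_eq_mul_right hpos h
    rw [this]
  have h3 : (∑ s ∈ W, ∏ p ∈ s, 1 / (p : ℝ)) * ∑ a ∈ T, (a : ℝ)⁻¹ ≤
      ∑ m ∈ Icc 1 ⌊Real.exp x * u⌋₊, (m : ℝ)⁻¹ := by
    rw [Finset.sum_mul_sum, ← Finset.sum_product']
    have e1 : ∑ t ∈ W ×ˢ T, (∏ p ∈ t.1, 1 / (p : ℝ)) * (t.2 : ℝ)⁻¹ =
        ∑ m ∈ (W ×ˢ T).image (fun t : Finset ℕ × ℕ => t.2 * ∏ p ∈ t.1, p), (m : ℝ)⁻¹ := by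
      rw [Finset.sum_image hinj]
      refine Finset.sum_congr rfl fun t _ => ?_
      push_cast
      rw [mul_inv, ← Finset.prod_inv_distrib, mul_comm]
      simp
    rw [e1]
    apply Finset.sum_le_sum_of_subset_of_nonneg
    · intro m hm
      rw [mem_image] at hm
      obtain ⟨⟨s, a⟩, hsa, rfl⟩ := hm
      rw [mem_product] at hsa
      simp only at hsa ⊢
      have ha := mem_Icc.1 (mem_filter.1 hsa.2).1
      have hpos : 0 < ∏ p ∈ s, p := Finset.prod_pos fun p hp => (hWp s hsa.1 p hp).1.pos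
      rw [mem_Icc]
      refine ⟨Nat.mul_pos (by omega) hpos, Nat.le_floor ?_⟩
      push_cast
      have h4 := hprod s hsa.1
      push_cast at h4
      have h5 : (a : ℝ) ≤ u := (Nat.cast_le.2 ha.2).trans (Nat.floor_le (Real.exp_pos _).le)
      rw [mul_comm]
      exact mul_le_mul h4 h5 (Nat.cast_nonneg a) (Real.exp_pos _).le
    · intro m _ _
      positivity
  have h4 : ∑ m ∈ Icc 1 ⌊Real.exp x * u⌋₊, (m : ℝ)⁻¹ ≤ 1 + (x + A * Real.log w) := by
    have e1 : 1 ≤ Real.exp x * u := by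
      rw [hu, ← Real.exp_add]
      apply Real.one_le_exp
      have : 0 ≤ A * Real.log w := by positivity
      linarith
    have e2 := harmonic_le_one_add_log ⌊Real.exp x * u⌋₊
    rw [harmonic_eq_sum_Icc] at e2
    push_cast at e2
    refine e2.trans ?_
    have e3 : Real.log ⌊Real.exp x * u⌋₊ ≤ Real.log (Real.exp x * u) := by
      apply Real.log_le_log
      · exact_mod_cast Nat.floor_pos.2 e1
      · exact Nat.floor_le (by positivity)
    have e4 : Real.log (Real.exp x * u) = x + A * Real.log w := by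
      rw [hu, ← Real.exp_add, Real.log_exp]
    linarith
  have hR0 : 0 ≤ ∑ s ∈ W, ∏ p ∈ s, 1 / (p : ℝ) := Finset.sum_nonneg fun s _ => by positivity
  set R := ∑ s ∈ W, ∏ p ∈ s, 1 / (p : ℝ) with hR
  have h5 : R * ((1 - δ / 4) * MP w) ≤ 1 + (x + A * Real.log w) :=
    (mul_le_mul_of_nonneg_left h2 hR0).trans (h3.trans h4)
  rw [le_div_iff₀ hM]
  have h6 : 1 + (x + A * Real.log w) ≤ x + (A + 1) * Real.log w := by nlinarith
  have h7 : 1 ≤ (1 + δ) * (1 - δ / 4) := by nlinarith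
  have hRM : 0 ≤ R * MP w := mul_nonneg hR0 hM.le
  calc R * MP w ≤ (R * MP w) * ((1 + δ) * (1 - δ / 4)) := by nlinarith
    _ = (1 + δ) * (R * ((1 - δ / 4) * MP w)) := by ring
    _ ≤ (1 + δ) * (x + (A + 1) * Real.log w) := by
        apply mul_le_mul_of_nonneg_left _ (by linarith)
        linarith

end Pool.Agent.K4H10.BR
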