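import Pool.Agent.K4H10.BR.Fin
import Pool.Agent.K4H10.BR.CovM

set_option autoImplicit false
set_option linter.unusedSectionVars false

/-! # Weights below the threshold, final form -/

namespace Pool.Agent.K4H10.BR

open Finset Filter Pool.Agent.K4H10.EX

open scoped Classical

theorem lam_facts (ε Λ₀ : ℝ) (hε : 0 < ε) (hε1 : ε ≤ 1 / 10) : ∃ L₀ : ℝ, ∀ L : ℝ, L₀ ≤ L →
    1000 ≤ L ∧ Λ₀ ≤ Real.log (ε * L / Real.log L) ∧
    Real.log (ε * L / Real.log L) ≤ Real.log L ∧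
    (1 / 2 - ε) * L * Real.log L ≤ (1 / 2 - ε / 2) * L * Real.log (ε * L / Real.log L) ∧
    Real.log L * Real.exp (Real.log (ε * L / Real.log L)) = ε * L := by
  obtain ⟨L₂, hL₂⟩ := ev_cov ε ε 0 hε hε
  have h1 : ∀ᶠ L : ℝ in atTop, Real.log L ≤ (ε * Real.exp (-Λ₀)) * L := by
    have e2 := Real.isLittleO_log_id_atTop.def (show (0:ℝ) < ε * Real.exp (-Λ₀) by positivity)
    filter_upwards [e2, eventually_ge_atTop (1:ℝ)] with t ht ht1
    rw [Real.norm_eq_abs, abs_of_nonneg (Real.log_nonneg ht1), Real.norm_eq_abs] at ht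
    simp only [id] at ht
    rwa [abs_of_nonneg (by linarith)] at ht
  obtain ⟨L₃, hL₃⟩ := eventually_atTop.1 h1
  refine ⟨max L₂ L₃, fun L hL => ?_⟩
  have hLb : L₂ ≤ L := (le_max_left _ _).trans hL
  have hLc : L₃ ≤ L := (le_max_right _ _).trans hL
  obtain ⟨g1, _, g3, g4, g5, _, _⟩ := hL₂ L hLb
  have g6 := hL₃ L hLc
  have hL0 : 0 < L := by linarith
  have hl0 : 0 < Real.log L := by linarith
  set Λ : ℝ := Real.log (ε * L / Real.log L) with hΛ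
  have hq0 : 0 < ε * L / Real.log L := by positivity
  have hΛeq : Λ = Real.log L - (Real.log (Real.log L) + Real.log (1 / ε)) := by
    rw [hΛ, Real.log_div (by positivity) hl0.ne', Real.log_mul hε.ne' hL0.ne', one_div,
      Real.log_inv]
    ring
  have hll : 0 ≤ Real.log (Real.log L) := Real.log_nonneg (by linarith)
  have hle : 0 ≤ Real.log (1 / ε) := by
    apply Real.log_nonneg
    rw [le_div_iff₀ hε]; linarith
  refine ⟨g4, ?_, by rw [hΛeq]; linarith, ?_, ?_⟩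
  · rw [hΛ, Real.le_log_iff_exp_le hq0, le_div_iff₀ hl0]
    have : Real.exp Λ₀ * Real.log L ≤ Real.exp Λ₀ * ((ε * Real.exp (-Λ₀)) * L) :=
      mul_le_mul_of_nonneg_left g6 (Real.exp_pos _).le
    refine this.trans (le_of_eq ?_)
    have e1 : Real.exp Λ₀ * Real.exp (-Λ₀) = 1 := by rw [← Real.exp_add]; simp
    calc Real.exp Λ₀ * ((ε * Real.exp (-Λ₀)) * L) =
        (Real.exp Λ₀ * Real.exp (-Λ₀)) * (ε * L) := by ring
      _ = ε * L := by rw [e1, one_mul]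
  · have e1 : (1 / 2 - ε) * Real.log L ≤ (1 / 2 - ε / 2) * Λ := by
      rw [hΛeq]
      have e2 : (1 / 2 - ε / 2) * (Real.log (Real.log L) + Real.log (1 / ε)) ≤
          1 / 2 * (2 * Real.log (Real.log L) + Real.log (1 / ε)) := by
        nlinarith
      nlinarith
    calc (1 / 2 - ε) * L * Real.log L = L * ((1 / 2 - ε) * Real.log L) := by ring
      _ ≤ L * ((1 / 2 - ε / 2) * Λ) := mul_le_mul_of_nonneg_left e1 hL0.le
      _ = _ := by ring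
  · rw [hΛ, Real.exp_log hq0]
    field_simp

theorem weights_final (ε : ℝ) (hε : 0 < ε) (hε1 : ε ≤ 1 / 10) : ∃ L₀ : ℝ, ∀ L : ℝ, L₀ ≤ L →
    ∀ (N : ℕ) (h : Fin N → ℤ), (∀ p : ℕ, p.Prime → L ^ 2 < p → ∀ i j, (p : ℤ) ∣ h i - h j → i = j) →
    N * MP (L ^ 2) ≤ (1 / 2 - ε) * L * Real.log L →
    ∃ S : Finset ℕ, (∀ p ∈ S, p.Prime ∧ L ^ 2 < (p : ℕ) ∧ ((p : ℕ) : ℝ) ≤ Real.exp (ε * L)) ∧
    ∃ V : ℤ → ℝ, V ∈ Level (∏ p ∈ S, p) (Real.exp (L / 2)) ∧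
      0 < ∑ n ∈ range (∏ p ∈ S, p), V n ^ 2 ∧
      ∑ n ∈ range (∏ p ∈ S, p), V n ^ 2 *
        (((univ : Finset (Fin N)).filter (fun k => ∀ p ∈ S, ¬ ((p : ℕ) : ℤ) ∣ n + h k)).card : ℝ) ≤
      1 / 3 * ∑ n ∈ range (∏ p ∈ S, p), V n ^ 2 := by
  obtain ⟨Λ₀, L₁, hΛ₀, hcov⟩ := cov_model (ε / 2) (by positivity) (by linarith)
  obtain ⟨L₂, hL₂⟩ := lam_facts ε Λ₀ hε hε1
  refine ⟨max L₁ L₂, fun L hL N h hh hN => ?_⟩
  obtain ⟨g1, g2, g3, g4, g5⟩ := hL₂ L ((le_max_right _ _).trans hL)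
  obtain ⟨S, hS, V, hV, hV0, hV1⟩ := hcov L ((le_max_left _ _).trans hL) _ g2 g3 N h
    (hN.trans g4) hh
  refine ⟨S, fun p hp => ?_, V, hV, hV0, hV1⟩
  obtain ⟨h1, h2, h3⟩ := hS p hp
  refine ⟨h1, h2, ?_⟩
  rw [g5] at h3
  have hp0 : (0:ℝ) < p := by exact_mod_cast h1.pos
  rwa [Real.log_le_iff_le_exp hp0] at h3

end Pool.Agent.K4H10.BR
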